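import Mathlib

/-! An absolute value cannot see equidistributed roots of growing degree near a fixed root. -/

namespace Pool.Agent.P.MP_3fd745_al

open Filter Topology

variable {F : Type} [Field F] (v : AbsoluteValue F ℝ)

lemma abs_pow_sub (η : F) (n : ℕ) : v ((1 + η) ^ n - 1) ≤ (1 + v η) ^ n - 1 := by
  induction n with
  | zero => simp
  | succ n ih =>
    have e : (1 + η) ^ (n + 1) - 1 = ((1 + η) ^ n - 1) * (1 + η) + η := by ring
    have h1 : v (1 + η) ≤ 1 + v η := by simpa using v.add_le 1 η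
    have h2 := v.add_le (((1 + η) ^ n - 1) * (1 + η)) η
    rw [map_mul] at h2
    have h3 := mul_le_mul ih h1 (v.nonneg _) ((v.nonneg _).trans ih)
    rw [e, pow_succ]
    linarith

lemma abs_ultra (h : ∀ m : ℕ, v m ≤ 1) (x y : F) : v (x + y) ≤ max (v x) (v y) := by
  have : IsUltrametricDist (WithAbs v) :=
    isUltrametricDist_iff_forall_norm_natCast_le_one.2 fun m => by
      rw [WithAbs.norm_eq_apply_ofAbs, show (m : WithAbs v).ofAbs = m from
        map_natCast (WithAbs.equiv v) m]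
      exact h m
  simpa [WithAbs.norm_eq_apply_ofAbs] using
    IsUltrametricDist.norm_add_le_max (WithAbs.toAbs v x) (WithAbs.toAbs v y)

lemma abs_primes (h : ∀ m : ℕ, v m ≤ 1) :
    ∃ κ : ℝ, 0 < κ ∧ ∀ p : ℕ, p.Prime → (p : F) ≠ 0 → κ ≤ v p := by
  by_cases h1 : ∃ q : ℕ, q.Prime ∧ (q : F) ≠ 0 ∧ v q < 1
  · obtain ⟨q, hq, hq0, hq1⟩ := h1
    refine ⟨v q, v.pos hq0, fun p hp _ => ?_⟩
    by_cases e : p = q
    · rw [e]
    by_contra hlt
    obtain ⟨x, y, e1⟩ := Nat.isCoprime_iff_coprime.2 ((Nat.coprime_primes hp hq).2 e)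
    have hi : ∀ z : ℤ, v z ≤ 1 := fun z => by
      obtain ⟨m, rfl | rfl⟩ := z.eq_nat_or_neg <;> simpa using h m
    have e2 := congrArg (Int.cast : ℤ → F) e1
    push_cast at e2
    have h2 := abs_ultra v h ((x : F) * p) (y * q)
    rw [e2, map_one, map_mul, map_mul] at h2
    have h3 := mul_le_of_le_one_left (v.nonneg p) (hi x)
    have h4 := mul_le_of_le_one_left (v.nonneg q) (hi y)
    rcases le_max_iff.1 h2 with h5 | h5 <;> linarith [not_le.1 hlt]
  · exact ⟨1, one_pos, fun p hp h0 => not_lt.1 fun h2 => h1 ⟨p, hp, h0, h2⟩⟩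

lemma abs_lte (h : ∀ m : ℕ, v m ≤ 1) (κ : ℝ) (hκ : ∀ p : ℕ, p.Prime → (p : F) ≠ 0 → κ ≤ v p)
    (K : ℕ) (hK : 1 ≤ 2 ^ K * κ) (N : ℕ) (hN : (N : F) ≠ 0) :
    ∀ η : F, v η < κ → v η ≤ 1 → v η ≤ (N : ℝ) ^ K * v ((1 + η) ^ N - 1) := by
  induction N using induction_on_primes with
  | zero => simp at hN
  | one => intro η _ _; simp
  | prime_mul p N hp ih =>
    intro η h1 h2
    rw [Nat.cast_mul] at hN
    have hp0 := left_ne_zero_of_mul hN
    have key : ∀ j : ℕ, ∃ r : F, v r ≤ 1 ∧ (1 + η) ^ j - 1 = j * η + η ^ 2 * r := by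
      intro j
      induction j with
      | zero => exact ⟨0, by simp, by simp⟩
      | succ j ihj =>
        obtain ⟨r, hr, e⟩ := ihj
        refine ⟨r + (j + η * r), (abs_ultra v h _ _).trans (max_le hr ((abs_ultra v h _ _).trans
          (max_le (h j) (by rw [map_mul]; exact mul_le_one₀ h2 (v.nonneg _) hr)))), ?_⟩
        rw [pow_succ, sub_eq_iff_eq_add.1 e]
        push_cast
        ring
    obtain ⟨r, hr, e⟩ := key p
    by_cases h0 : η = 0
    · simp [h0]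
    have h3 : v (η ^ 2 * r) < v (p * η) := by
      rw [map_mul, map_mul, map_pow, sq]
      have := v.pos h0
      nlinarith [hκ p hp hp0, v.nonneg r, mul_pos this this]
    have h4 : v (p * η) ≤ v ((1 + η) ^ p - 1) := by
      have := abs_ultra v h ((1 + η) ^ p - 1) (-(η ^ 2 * r))
      rw [v.map_neg, e, add_neg_cancel_right] at this
      rw [e]
      exact (le_max_iff.1 this).resolve_right (not_le.2 h3)
    have h5 : v ((1 + η) ^ p - 1) ≤ v η := by
      rw [e]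
      refine (abs_ultra v h _ _).trans (max_le ?_ (h3.le.trans ?_)) <;>
        rw [map_mul] <;> exact mul_le_of_le_one_left (v.nonneg _) (h p)
    have h6 := ih (right_ne_zero_of_mul hN) _ (h5.trans_lt h1) (h5.trans h2)
    rw [add_sub_cancel, ← pow_mul] at h6
    rw [map_mul] at h4
    have h7 : (2 : ℝ) ^ K ≤ (p : ℝ) ^ K :=
      pow_le_pow_left₀ zero_le_two (by exact_mod_cast hp.two_le) K
    have h8 : 1 ≤ (p : ℝ) ^ K * v p := hK.trans (by
      have : 0 < κ := by by_contra h9; nlinarith [pow_pos (zero_lt_two' ℝ) K]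
      exact mul_le_mul h7 (hκ p hp hp0) this.le (by positivity))
    calc v η ≤ (p : ℝ) ^ K * v p * v η := le_mul_of_one_le_left (v.nonneg _) h8
      _ ≤ (p : ℝ) ^ K * ((N : ℝ) ^ K * v ((1 + η) ^ (p * N) - 1)) := by
        rw [mul_assoc]; exact mul_le_mul_of_nonneg_left (h4.trans h6) (by positivity)
      _ = _ := by push_cast; ring

lemma abs_contra (n : ℕ) (ν s : F) (h0 : s ^ n - ν ≠ 0) (h1 : v (s ^ n - ν) < 1)
    (H : ∀ s₁ s₂ : F, v (s₁ ^ n - ν) < 1 → v (s₂ ^ n - ν) < 1 → ∃ ρ : ℝ, 0 ≤ ρ ∧ ρ < 1 ∧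
      ∀ B : ℕ, ∃ N : ℕ, B ≤ N ∧ (N : F) ≠ 0 ∧ ∃ μ : F, v μ = 1 ∧ v (s₁ ^ N - μ) ≤ ρ ^ N ∧
        v (s₂ ^ N - μ) ≤ ρ ^ N) : False := by
  have a1 : ∀ t : F, v (t ^ n - ν) < 1 → v t = 1 := by
    intro t ht
    obtain ⟨ρ, h2, h3, h4⟩ := H t t ht ht
    rcases lt_trichotomy (v t) 1 with h | h | h
    · have := ((tendsto_pow_atTop_nhds_zero_of_lt_one (v.nonneg t) h).add
        (tendsto_pow_atTop_nhds_zero_of_lt_one h2 h3)).eventually_lt_const (u := 1) (by simp)
      obtain ⟨B, hB⟩ := eventually_atTop.1 this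
      obtain ⟨N, hN, -, μ, h5, h6, -⟩ := h4 B
      have h7 := v.le_sub μ (t ^ N)
      rw [v.map_sub, h5, map_pow] at h7
      linarith [hB N hN]
    · exact h
    · obtain ⟨B, hB⟩ := eventually_atTop.1
        ((tendsto_pow_atTop_atTop_of_one_lt h).eventually_gt_atTop 2)
      obtain ⟨N, hN, -, μ, h5, h6, -⟩ := h4 B
      have h7 := v.le_sub (t ^ N) μ
      rw [h5, map_pow] at h7
      linarith [hB N hN, pow_le_one₀ h2 h3.le (n := N)]
  have hs := a1 s h1
  obtain ⟨δ, hδ, a2⟩ : ∃ δ : ℝ, 0 < δ ∧ ∀ η : F, v η < δ → v ((s * (1 + η)) ^ n - ν) < 1 := by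
    have hc : ContinuousAt (fun x : ℝ => (1 + x) ^ n - 1 + v (s ^ n - ν)) 0 := by fun_prop
    obtain ⟨δ, hδ, h⟩ := Metric.eventually_nhds_iff.1
      (hc.eventually_lt_const (u := 1) (by simpa using h1))
    refine ⟨δ, hδ, fun η hη => lt_of_le_of_lt ?_ (h (y := v η) (by
      rwa [Real.dist_eq, sub_zero, abs_of_nonneg (v.nonneg η)]))⟩
    have := v.add_le (s ^ n * ((1 + η) ^ n - 1)) (s ^ n - ν)
    rw [map_mul, map_pow, hs, one_pow, one_mul,
      show s ^ n * ((1 + η) ^ n - 1) + (s ^ n - ν) = (s * (1 + η)) ^ n - ν by rw [mul_pow]; ring] at this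
    linarith [abs_pow_sub v η n]
  have a3 : ∀ x y : F, v y < δ * v x → v (x + y) = v x := by
    intro x y h
    have hx : x ≠ 0 := by rintro rfl; simp at h; linarith [v.nonneg y]
    have := a1 _ (a2 (y / x) (by rwa [map_div₀, div_lt_iff₀ (v.pos hx)]))
    rw [map_mul, hs, one_mul] at this
    rw [show x + y = (1 + y / x) * x by field_simp, map_mul, this, one_mul]
  have a4 : ∀ m : ℕ, v m ≤ 1 := by
    intro m
    by_contra hm
    rw [not_le] at hm
    obtain ⟨k, hk⟩ := pow_unbounded_of_one_lt δ⁻¹ hm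
    have h2 : ∀ j : ℕ, v ((m : F) ^ k + j) = v m ^ k := by
      intro j
      induction j with
      | zero => simp
      | succ j ih =>
        rw [Nat.cast_succ, ← add_assoc, a3 _ _ (by
          rw [map_one, ih]; exact (inv_lt_iff_one_lt_mul₀' hδ).1 hk), ih]
    have hm0 : 0 < m := Nat.pos_of_ne_zero (by rintro rfl; simp at hm; linarith)
    have h3 := h2 (m ^ (k + 1) - m ^ k)
    rw [Nat.cast_sub (Nat.pow_le_pow_right hm0 k.le_succ)] at h3
    push_cast at h3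
    rw [add_sub_cancel, map_pow] at h3
    exact (pow_lt_pow_right₀ hm k.lt_succ_self).ne' h3
  obtain ⟨κ, hκ, a5⟩ := abs_primes v a4
  obtain ⟨K, hK⟩ := pow_unbounded_of_one_lt κ⁻¹ (one_lt_two (α := ℝ))
  obtain ⟨j, hj⟩ := exists_pow_lt_of_lt_one (lt_min hδ hκ) h1
  rw [← map_pow, lt_min_iff] at hj
  have hη : 0 < v ((s ^ n - ν) ^ j) := v.pos (pow_ne_zero _ h0)
  have hη1 : v ((s ^ n - ν) ^ j) ≤ 1 := by rw [map_pow]; exact pow_le_one₀ (v.nonneg _) h1.le
  generalize (s ^ n - ν) ^ j = η at *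
  obtain ⟨ρ, h2, h3, h4⟩ := H _ s (a2 η hj.1) h1
  obtain ⟨B, hB⟩ := eventually_atTop.1 ((tendsto_pow_const_mul_const_pow_of_abs_lt_one K
    (r := ρ) (by rwa [abs_of_nonneg h2])).eventually_lt_const hη)
  obtain ⟨N, hN, hN0, μ, -, h6, h7⟩ := h4 B
  have h8 := abs_lte v a4 κ a5 K ((inv_lt_iff_one_lt_mul₀ hκ).1 hK).le N hN0 η hj.2 hη1
  have h9 := abs_ultra v a4 ((s * (1 + η)) ^ N - μ) (-(s ^ N - μ))
  rw [v.map_neg, show (s * (1 + η)) ^ N - μ + -(s ^ N - μ) = s ^ N * ((1 + η) ^ N - 1) by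
    rw [mul_pow]; ring,
    map_mul, map_pow, hs, one_pow, one_mul] at h9
  have := mul_le_mul_of_nonneg_left (h9.trans (max_le h6 h7)) (by positivity : 0 ≤ (N : ℝ) ^ K)
  linarith [hB N hN]

end Pool.Agent.P.MP_3fd745_al
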