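import Pool.Agent.P.MP_3fd745_al.AbsA
import Pool.Agent.P.MP_3fd745_al.Sv.Hull

/-! Lines of twisted commutators with bounded degree, and multiplicative maps. -/

namespace Pool.Agent.P.MP_3fd745_al

open Polynomial

variable {D : Type} [DivisionRing D]

lemma det_wedd (χ : D →*₀ ℝ) (m : D) (hm : IsIntegral (Subring.center D) m)
    (s : Subring.center D) : χ (algebraMap _ D ((minpoly (Subring.center D) m).eval s)) =
      χ (algebraMap _ D s - m) ^ (minpoly (Subring.center D) m).natDegree := by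
  set f := minpoly (Subring.center D) m with hf
  have hfm : f.Monic := minpoly.monic hm
  have key : ∀ r ≤ f.natDegree, ∃ g h : D[X], g * h = f.map (algebraMap _ D) ∧ h.Monic ∧
      h.natDegree = r ∧ χ (h.eval (algebraMap _ D s)) = χ (algebraMap _ D s - m) ^ r := by
    intro r hr
    induction r with
    | zero => exact ⟨_, 1, mul_one _, monic_one, natDegree_one, by simp⟩
    | succ r ih =>
      obtain ⟨g, h, e, h1, h2, h3⟩ := ih (by omega)
      obtain ⟨x, hx⟩ : ∃ x, act m h x ≠ 0 := by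
        by_contra hc
        have := act_indep m h h1.ne_zero (fun x => not_not.1 fun h' => hc ⟨x, h'⟩)
        rw [← hf] at this
        omega
      have h4 := act_map m x f (minpoly.aeval _ m)
      rw [← e, act_mul, act_eval m _ hx, mul_eq_zero, or_iff_left hx] at h4
      obtain ⟨g', rfl⟩ := right_factor g _ h4
      refine ⟨g', _, by rw [← e, mul_assoc], (monic_X_sub_C _).mul h1, ?_, ?_⟩
      · rw [(monic_X_sub_C _).natDegree_mul h1, natDegree_X_sub_C, h2, add_comm]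
      · generalize act m h x = y at hx
        have : algebraMap _ D s - y * m * y⁻¹ = y * (algebraMap _ D s - m) * y⁻¹ := by
          rw [mul_sub, sub_mul, ← Algebra.commutes, mul_inv_cancel_right₀ hx]
        rw [eval_mul_cen, map_mul, h3, eval_sub, eval_X, eval_C, pow_succ', this, map_mul, map_mul,
          map_inv₀, mul_comm (χ y), mul_inv_cancel_right₀ ((map_ne_zero χ).2 hx)]
  obtain ⟨g, h, e, h1, h2, h3⟩ := key _ le_rfl
  have hm2 := hfm.map (algebraMap (Subring.center D) D)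
  have hg : g.Monic := by
    have := hm2.leadingCoeff
    rwa [← e, leadingCoeff_mul, h1.leadingCoeff, mul_one] at this
  have hd := hfm.natDegree_map (algebraMap (Subring.center D) D)
  rw [← e, hg.natDegree_mul h1, h2, add_eq_right, hg.natDegree_eq_zero] at hd
  rw [hd, one_mul] at e
  rw [← h3, e, eval_map, eval₂_at_apply]

lemma line_pow (f : (Subring.center D)[X]) (hf : Irreducible f) (hfm : f.Monic) (m y t : D)
    (hm : aeval m f = 0) (hy : aeval y f = 0) (ht : t ≠ 0) (h0 : m ∉ Subring.center D) (N : ℕ)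
    (S : Set (Subring.center D)) (hS : S.Infinite) (h : ∀ σ ∈ S,
      ((algebraMap _ D σ - y) * t * (algebraMap _ D σ - m)⁻¹) ^ N ∈ Subring.center D)
    (σ : Subring.center D) :
    ((algebraMap _ D σ - y) * t * (algebraMap _ D σ - m)⁻¹) ^ N = t ^ N := by
  have hev : ∀ (c : (Subring.center D)[X]) (ε : Subring.center D), (c.map (algebraMap _ D)).eval
    (algebraMap _ D ε) = algebraMap _ D (c.eval ε) := fun c ε => by rw [eval_map, eval₂_at_apply]
  have hcc : ∀ g : D[X], f.map (algebraMap _ D) * g = g * f.map (algebraMap _ D) := fun g => by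
    ext j
    rw [coeff_mul, coeff_mul, Finset.Nat.sum_antidiagonal_swap.symm]
    exact Finset.sum_congr rfl fun x _ => by simp [Algebra.commutes]
  have fac : ∀ x : D, aeval x f = 0 → ∃ q : D[X], q * (X - C x) = f.map (algebraMap _ D) ∧
      (X - C x) * q = f.map (algebraMap _ D) := fun x hx => by
    obtain ⟨q, e⟩ := right_factor (f.map (algebraMap _ D)) x (by rwa [eval_map, ← aeval_def])
    exact ⟨q, e.symm, mul_right_cancel₀ (X_sub_C_ne_zero x) (by rw [mul_assoc, ← e, hcc])⟩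
  obtain ⟨q, q1, q2⟩ := fac m hm
  obtain ⟨q', -, q3⟩ := fac y hy
  have hm0 : ∀ σ : Subring.center D, algebraMap _ D σ - m ≠ 0 := fun σ e =>
    h0 (sub_eq_zero.1 e ▸ σ.2)
  have hf0 : f.eval σ ≠ 0 := fun e => hm0 σ (by
    rw [(minpoly.eq_of_irreducible_of_monic hf (x := algebraMap _ D σ) (by
      rw [aeval_algebraMap_apply_eq_algebraMap_eval, e, map_zero]) hfm).trans
      (minpoly.eq_X_sub_C D σ), map_sub, aeval_X, aeval_C] at hm
    rw [← neg_sub, hm, neg_zero])
  have hg := hfm.map (algebraMap _ D)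
  have hq : q.Monic := (monic_X_sub_C m).of_mul_monic_left (q2 ▸ hg)
  obtain ⟨U, hU⟩ : ∃ U, U = (X - C y) * C t * q := ⟨_, rfl⟩
  have u1 : ∀ (j : ℕ) (σ : Subring.center D), (U ^ j).eval (algebraMap _ D σ) = algebraMap _ D
      (f.eval σ ^ j) * ((algebraMap _ D σ - y) * t * (algebraMap _ D σ - m)⁻¹) ^ j := by
    intro j σ
    have e := congrArg (eval (algebraMap _ D σ)) q1
    rw [eval_mul_cen, hev, eval_sub, eval_X, eval_C, ← eq_mul_inv_iff_mul_eq₀ (hm0 σ)] at e
    induction j with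
    | zero => simp
    | succ j ih =>
      rw [pow_succ, eval_mul_cen, ih, hU, eval_mul_cen, eval_mul_cen, e, eval_sub, eval_X, eval_C,
        eval_C]
      simp only [← Algebra.smul_def, mul_smul_comm, smul_mul_assoc, smul_smul, pow_succ, mul_comm]
  have u2 : ∀ j : ℕ, U ^ j * ((X - C m) * C t⁻¹ * q') ^ j = (f ^ (2 * j)).map (algebraMap _ D) := by
    have e : U * ((X - C m) * C t⁻¹ * q') = f.map (algebraMap _ D) * f.map (algebraMap _ D) := by
      rw [hU, mul_assoc _ q, ← mul_assoc q, ← mul_assoc q, q1, mul_assoc (f.map _), hcc,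
        ← mul_assoc, mul_assoc _ (C t), ← mul_assoc (C t), ← C_mul, mul_inv_cancel₀ ht, C_1,
        one_mul, q3]
    intro j
    induction j with
    | zero => simp
    | succ j ih =>
      rw [pow_succ, pow_succ' _ j, mul_assoc, ← mul_assoc U, e, mul_assoc, hcc, hcc, ← mul_assoc,
        ← mul_assoc, ih, ← Polynomial.map_mul, ← Polynomial.map_mul, ← pow_succ, ← pow_succ]
      rfl
  obtain ⟨R, hR⟩ : ∃ R : (Subring.center D)[X], R.map (algebraMap _ D) = U ^ N := by
    rw [← mem_lifts, lifts_iff_coeff_lifts]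
    refine fun i => ⟨⟨(U ^ N).coeff i, Subring.mem_center_iff.2 fun z => sub_eq_zero.1
      ((Module.forall_dual_apply_eq_zero_iff (Subring.center D) _).1 fun l => ?_)⟩, rfl⟩
    obtain ⟨g, g1, g2⟩ := exists_dual_poly l (C z * U ^ N - U ^ N * C z)
    have : g = 0 := eq_zero_of_infinite_isRoot g (hS.mono fun σ hσ => by
      change g.eval σ = 0
      rw [g2, eval_sub, eval_mul_cen, eval_mul_cen, eval_C, u1]
      exact (congrArg l (sub_eq_zero.2 (Subring.mem_center_iff.1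
        (mul_mem (f.eval σ ^ N).2 (h σ hσ)) z))).trans l.map_zero)
    simpa [this] using (g1 i).symm
  have hr : algebraMap _ D R.leadingCoeff = t ^ N := by
    rw [← leadingCoeff_map, hR, leadingCoeff_pow, hU]
    simp [hq.leadingCoeff]
  have hR0 : R ≠ 0 := by rintro rfl; exact pow_ne_zero N ht (by simpa using hr.symm)
  have hl := leadingCoeff_ne_zero.2 hR0
  have h1 := monic_mul_leadingCoeff_inv hR0
  obtain ⟨j, -, h2⟩ := (dvd_prime_pow hf.prime (2 * N)).1
    ((map_dvd_map (algebraMap _ D) Subtype.val_injective h1).1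
      ⟨(C R.leadingCoeff).map (algebraMap _ D) * ((X - C m) * C t⁻¹ * q') ^ N, by
        rw [← mul_assoc, ← Polynomial.map_mul, mul_assoc R, ← C_mul, inv_mul_cancel₀ hl, C_1,
          mul_one, hR, u2]⟩)
  have h3 := eq_of_monic_of_associated h1 (hfm.pow j) h2
  have h4 : N = j := by
    have e1 := congrArg natDegree h3
    have e2 := congrArg natDegree q2
    rw [natDegree_mul_C (inv_ne_zero hl), ← natDegree_map (algebraMap _ D), hR, natDegree_pow,
      natDegree_pow, hU, natDegree_mul (mul_ne_zero (X_sub_C_ne_zero y) (C_ne_zero.2 ht))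
        hq.ne_zero, natDegree_mul_C ht, natDegree_X_sub_C] at e1
    rw [(monic_X_sub_C m).natDegree_mul hq, natDegree_X_sub_C, natDegree_map] at e2
    exact Nat.eq_of_mul_eq_mul_right hf.natDegree_pos (e2 ▸ e1)
  have h5 := u1 N σ
  have h6 := congrArg (eval σ) h3
  rw [eval_mul, eval_C, mul_inv_eq_iff_eq_mul₀ hl, eval_pow, ← h4] at h6
  rw [← hR, hev, h6, map_mul, hr] at h5
  exact (mul_left_cancel₀ ((_root_.map_ne_zero _).2 (pow_ne_zero N hf0)) h5).symm

lemma abs_big {F : Type} [Field F] (v : AbsoluteValue F ℝ) (hv : v.IsNontrivial) (T : ℝ) :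
    {σ | T ≤ v σ}.Infinite := fun h => by
  obtain ⟨π, hπ⟩ := hv.exists_abv_gt_one
  obtain ⟨B, hB⟩ := (h.image v).bddAbove
  obtain ⟨j, hj⟩ := pow_unbounded_of_one_lt (max T B) hπ
  rw [← map_pow, max_lt_iff] at hj
  exact hj.2.not_ge (hB ⟨_, hj.1.le, rfl⟩)

section
variable {k : ℕ} {P : D → Prop} (H : Hyp k P) (χ : D →*₀ ℝ) (hpos : ∀ x, 0 ≤ χ x)
  (v : AbsoluteValue (Subring.center D) ℝ) (hχ : ∀ s, χ (algebraMap _ D s) = v s)
include H hχ

lemma det_bin (m : D) (hm : P m) : ∃ (d : ℕ) (ν : Subring.center D), (d : D) ≠ 0 ∧ d ≠ 0 ∧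
    Irreducible (X ^ d - C ν) ∧ minpoly (Subring.center D) m = X ^ d - C ν ∧
    m ^ d = algebraMap _ D ν ∧ χ m ^ d = v ν ∧
    ∀ s, χ (algebraMap _ D s - m) ^ d = v (s ^ d - ν) := by
  obtain ⟨hi, d, ν, hd, e⟩ := minpoly_binom H m hm
  have h3 := minpoly.aeval (Subring.center D) m
  rw [e, map_sub, map_pow, aeval_X, aeval_C, sub_eq_zero] at h3
  refine ⟨d, ν, hd, by rintro rfl; simp at hd, e ▸ minpoly.irreducible hi, e, h3,
    by rw [← map_pow, h3, hχ], fun s => ?_⟩
  have := det_wedd χ m hi s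
  rw [e, hχ, natDegree_X_pow_sub_C] at this
  simpa using this.symm

include hpos

lemma det_le (m : D) (hm : P m) (s : Subring.center D) :
    χ (algebraMap _ D s - m) ≤ v s + χ m ∧ v s - χ m ≤ χ (algebraMap _ D s - m) := by
  obtain ⟨d, ν, -, hd, -, -, -, e1, e2⟩ := det_bin H χ v hχ m hm
  constructor
  · rw [← pow_le_pow_iff_left₀ (hpos _) (add_nonneg (v.nonneg _) (hpos _)) hd, e2]
    refine (v.sub_le_add _ _).trans ?_
    rw [map_pow, ← e1]
    exact pow_add_pow_le (v.nonneg _) (hpos _) hd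
  · rw [sub_le_iff_le_add,
      ← pow_le_pow_iff_left₀ (v.nonneg _) (add_nonneg (hpos _) (hpos _)) hd]
    refine le_trans ?_ (pow_add_pow_le (hpos _) (hpos _) hd)
    rw [e1, e2, ← map_pow]
    simpa using v.add_le (s ^ d - ν) ν

lemma line_min (hv : v.IsNontrivial) (φ : D →+* D) (hφ : ∀ s, φ (algebraMap _ D s) =
    algebraMap (Subring.center D) D s) (hP : ∀ w, w ≠ 0 → P (φ w * w⁻¹) ∧ χ (φ w * w⁻¹) = 1)
    (u : D) (hu : u ≠ 0) (h1 : χ (1 - φ u * u⁻¹) < 1) : (φ u * u⁻¹) ^ (minpoly (Subring.center D)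
      (φ (u - φ u) * (u - φ u)⁻¹)).natDegree ∈ Subring.center D := by
  obtain ⟨m, hm⟩ : ∃ m, m = φ u * u⁻¹ := ⟨_, rfl⟩
  obtain ⟨m1, m2⟩ := hP u hu
  rw [← hm] at h1 m1 m2 ⊢
  by_cases h0 : m ∈ Subring.center D
  · exact pow_mem h0 _
  have hm0 : ∀ σ : Subring.center D, algebraMap _ D σ - m ≠ 0 := fun σ e =>
    h0 (sub_eq_zero.1 e ▸ σ.2)
  obtain ⟨c, hc⟩ : ∃ c : Subring.center D → D,
    ∀ σ, c σ = (algebraMap _ D σ - φ m) * m * (algebraMap _ D σ - m)⁻¹ := ⟨_, fun _ => rfl⟩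
  have c0 : ∀ σ, c σ = φ ((algebraMap _ D σ - m) * u) * ((algebraMap _ D σ - m) * u)⁻¹ := fun σ => by
    rw [hc, map_mul, map_sub, hφ, mul_inv_rev, mul_assoc _ (φ u), ← mul_assoc (φ u), ← hm, mul_assoc]
  have c1 : ∀ σ, P (c σ) ∧ χ (c σ) = 1 := fun σ => c0 σ ▸ hP _ (mul_ne_zero (hm0 σ) hu)
  obtain ⟨d, ν, -, hd, hi, e0, e1, e2, e3⟩ := det_bin H χ v hχ m m1
  choose dd νν b1 b2 b3 b4 b5 b6 b7 using fun σ => det_bin H χ v hχ _ (c1 σ).1
  by_cases hS : ∃ N, {σ | dd σ = N}.Infinite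
  · obtain ⟨N, hS⟩ := hS
    have h2 := line_pow _ hi (monic_X_pow_sub_C _ hd) m (φ m) m (by simp [e1]) (by
      rw [map_sub, map_pow, aeval_X, aeval_C, ← map_pow, e1, hφ, sub_self]) (H.h0 _ m1) h0 N _ hS
      fun σ hσ => by rw [← hc, ← hσ, b5]; exact Subtype.prop _
    obtain ⟨σ, rfl⟩ := hS.nonempty
    have h3 : m ^ dd σ = algebraMap _ D (νν σ) := by rw [← h2 σ, ← hc, b5]
    have h4 : u - φ u = (algebraMap _ D (1 : Subring.center D) - m) * u := by
      rw [map_one, sub_mul, one_mul, hm, inv_mul_cancel_right₀ hu]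
    rw [h4, ← c0, ← minpoly.eq_of_irreducible_of_monic (b3 σ) (by
      rw [map_sub, map_pow, aeval_X, aeval_C, hc, h2, h3, sub_self]) (monic_X_pow_sub_C _ (b2 σ)),
      natDegree_X_pow_sub_C, h3]
    exact Subtype.prop _
  exfalso
  refine abs_contra v d ν 1 (fun h => h0 (Subring.mem_center_iff.2 fun z => (torsion_central H m m1
    d (Nat.pos_of_ne_zero hd) (by rw [e1, ← sub_eq_zero.1 h]; simp) z).symm))
    (by rw [← e3, map_one]; exact pow_lt_one₀ (hpos _) h1 hd) fun s₁ s₂ h2 h3 => ?_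
  rw [← e3, pow_lt_one_iff_of_nonneg (hpos _) hd] at h2 h3
  obtain ⟨r, r0, r1, r2, r3⟩ : ∃ r, 0 ≤ r ∧ r < 1 ∧ χ (algebraMap _ D s₁ - m) ≤ r ∧
    χ (algebraMap _ D s₂ - m) ≤ r :=
    ⟨_, (hpos _).trans (le_max_left _ _), max_lt h2 h3, le_max_left _ _, le_max_right _ _⟩
  refine ⟨(1 + r) / 2, by positivity, by linarith, fun B => ?_⟩
  obtain ⟨σ, s1, s2⟩ := ((abs_big v hv (4 / (1 - r))).sdiff ((Set.finite_lt_nat B).biUnion
    fun N _ => Set.not_infinite.1 fun h => hS ⟨N, h⟩)).nonempty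
  have s3 : 4 ≤ v σ * (1 - r) := (div_le_iff₀ (by linarith)).1 s1
  have key : ∀ s, χ (algebraMap _ D s - m) ≤ r → v (s ^ dd σ - νν σ) ≤ ((1 + r) / 2) ^ dd σ := by
    intro s hs
    have e : ∀ s σ, (algebraMap _ D s - c σ) * (algebraMap _ D σ - m) =
        algebraMap _ D (s * σ) - (algebraMap _ D (s + σ) - φ m) * m := fun s σ => by
      rw [sub_mul, hc, inv_mul_cancel_right₀ (hm0 σ), map_mul, map_add]
      noncomm_ring
    have h4 := congrArg χ ((e s σ).trans (by rw [e, mul_comm, add_comm] :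
      _ = (algebraMap _ D σ - c s) * (algebraMap _ D s - m)))
    rw [map_mul, map_mul] at h4
    have h5 := (det_le H χ hpos v hχ _ (c1 s).1 σ).1
    have h6 := (det_le H χ hpos v hχ _ m1 σ).2
    rw [(c1 s).2] at h5
    rw [m2] at h6
    rw [← b7]
    refine pow_le_pow_left₀ (hpos _) (le_of_mul_le_mul_right (a := v σ - 1) ?_ (by nlinarith)) _
    calc _ ≤ _ := mul_le_mul_of_nonneg_left h6 (hpos _)
      _ ≤ (v σ + 1) * r := h4 ▸ mul_le_mul h5 hs (hpos _) (by positivity)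
      _ ≤ _ := by linarith
  exact ⟨dd σ, not_lt.1 fun h => s2 (Set.mem_biUnion h rfl),
    fun h => b1 σ (by simpa using congrArg Subtype.val h), νν σ,
    by rw [← b6, (c1 σ).2, one_pow], key _ r2, key _ r3⟩

lemma line_fix (hv : v.IsNontrivial) (φ : D →+* D) (hφ : ∀ s, φ (algebraMap _ D s) =
    algebraMap (Subring.center D) D s) (hP : ∀ w, w ≠ 0 → P (φ w * w⁻¹) ∧ χ (φ w * w⁻¹) = 1)
    (b : D) (hb : P b) : φ b = b := by
  by_contra hne
  have h0 : b ∉ Subring.center D := fun h => hne (hφ ⟨b, h⟩)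
  have hb0 : ∀ σ : Subring.center D, algebraMap _ D σ - b ≠ 0 := fun σ e =>
    h0 (sub_eq_zero.1 e ▸ σ.2)
  obtain ⟨d, ν, -, hd, hi, -, e1, -⟩ := det_bin H χ v hχ b hb
  have L := line_pow _ hi (monic_X_pow_sub_C _ hd) b (φ b) 1 (by simp [e1]) (by
    rw [map_sub, map_pow, aeval_X, aeval_C, ← map_pow, e1, hφ, sub_self]) one_ne_zero h0
  have c0 : ∀ σ : Subring.center D, (algebraMap _ D σ - φ b) * 1 * (algebraMap _ D σ - b)⁻¹ =
    φ (algebraMap _ D σ - b) * (algebraMap _ D σ - b)⁻¹ := fun σ => by rw [map_sub, hφ, mul_one]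
  obtain ⟨N, μ, -, hN, -, e, -⟩ := det_bin H χ v hχ _ (hP _ (sub_ne_zero.2 hne)).1
  have h1 := L N _ (abs_big v hv (χ (φ b - b) + χ b + 1)) fun σ hσ => by
    have h2 : algebraMap _ D σ - b - φ (algebraMap _ D σ - b) = φ b - b := by
      rw [map_sub, hφ]; abel
    have h3 := (det_le H χ hpos v hχ _ hb σ).2
    have := line_min H χ hpos v hχ hv φ hφ hP _ (hb0 σ) (lt_of_mul_lt_mul_right
      (a := χ (algebraMap _ D σ - b)) (by
        rw [← map_mul, sub_mul, one_mul, one_mul, inv_mul_cancel_right₀ (hb0 σ), h2]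
        linarith [Set.mem_ofPred_eq ▸ hσ]) (hpos _))
    rwa [h2, e, natDegree_X_pow_sub_C, ← c0] at this
  have h2 := L 1 _ (abs_big v hv 0) (fun σ _ => Subring.mem_center_iff.2 fun z => by
    rw [pow_one, c0]
    exact (torsion_central H _ (hP _ (hb0 σ)).1 N (Nat.pos_of_ne_zero hN)
      (by rw [← c0, h1, one_pow]) z).symm) 0
  rw [pow_one, pow_one, mul_one, mul_inv_eq_one₀ (hb0 0), sub_right_inj] at h2
  exact hne h2

end

end Pool.Agent.P.MP_3fd745_al
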