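import Pool.Agent.P.MP_3fd745_al.AbsB

/-! Absolute values of the center that are trivial on a term of the derived series. -/

namespace Pool.Agent.P.MP_3fd745_al

open scoped IsMulCommutative in
lemma schur_tors {G : Type} [Group G] [Group.IsSolvable G]
    (h : ∀ g : G, ∃ k : ℕ, 0 < k ∧ g ^ k ∈ Subgroup.center G) (x : G) (hx : x ∈ commutator G) :
    ∃ k : ℕ, 0 < k ∧ x ^ k = 1 := by
  classical
  obtain ⟨s, hs⟩ : ∃ s : Finset G, x ∈ ⁅Subgroup.closure (s : Set G), Subgroup.closure (s : Set G)⁆ := by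
    rw [commutator_eq_closure] at hx
    induction hx using Subgroup.closure_induction with
    | mem x hx =>
      obtain ⟨a, b, rfl⟩ := hx
      exact ⟨{a, b}, Subgroup.commutator_mem_commutator (Subgroup.subset_closure (by simp))
        (Subgroup.subset_closure (by simp))⟩
    | one => exact ⟨∅, one_mem _⟩
    | mul x y _ _ hx hy =>
      obtain ⟨s, hs⟩ := hx
      obtain ⟨t, ht⟩ := hy
      have h1 := Subgroup.closure_mono (Finset.coe_subset.2 (Finset.subset_union_left (s₂ := t)))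
        (h := (s : Set G))
      have h2 := Subgroup.closure_mono (Finset.coe_subset.2 (Finset.subset_union_right (s₁ := s)))
        (h := (t : Set G))
      exact ⟨s ∪ t, mul_mem (Subgroup.commutator_mono h1 h1 hs) (Subgroup.commutator_mono h2 h2 ht)⟩
    | inv x _ hx => exact hx.imp fun s hs => inv_mem hs
  rw [← Subgroup.map_subtype_commutator] at hs
  obtain ⟨y, hy, rfl⟩ := hs
  obtain ⟨n, hn⟩ := (inferInstance : Group.IsSolvable (Subgroup.closure (s : Set G) ⧸
    Subgroup.center (Subgroup.closure (s : Set G))))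
  have := Sv.finite_of_derived n _ hn fun g => by
    obtain ⟨g, rfl⟩ := QuotientGroup.mk_surjective g
    obtain ⟨k, hk, e⟩ := h g
    exact isOfFinOrder_iff_pow_eq_one.2 ⟨k, hk, by
      rw [← QuotientGroup.mk_pow, QuotientGroup.eq_one_iff, Subgroup.mem_center_iff]
      exact fun z => Subtype.ext (Subgroup.mem_center_iff.1 e z)⟩
  have := Subgroup.finiteIndex_of_finite_quotient (H := Subgroup.center
    (Subgroup.closure (s : Set G)))
  refine ⟨_, Nat.pos_of_ne_zero this.index_ne_zero, ?_⟩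
  have h1 := Abelianization.commutator_subset_ker (MonoidHom.transferCenterPow _) hy
  simpa using congrArg (fun z : Subgroup.center (Subgroup.closure (s : Set G)) =>
    ((z : Subgroup.closure (s : Set G)) : G)) h1

variable {D : Type} [DivisionRing D]

lemma exists_det (v : AbsoluteValue (Subring.center D) ℝ)
    (hv : ∀ x ∈ commutator Dˣ, ∀ s : Subring.center D, (s : D) = x → v s = 1) :
    ∃ χ : D →*₀ ℝ, (∀ x, 0 ≤ χ x) ∧ ∀ s, χ (algebraMap _ D s) = v s := by
  classical
  let f : (Subring.center D)ˣ →* Abelianization Dˣ :=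
    Abelianization.of.comp (Units.map (Subring.center D).subtype.toMonoidHom)
  let g : (Subring.center D)ˣ →* Multiplicative ℝ :=
    { toFun := fun s => Multiplicative.ofAdd (Real.log (v s))
      map_one' := by simp
      map_mul' := fun s t => by
        simp [Real.log_mul (v.ne_zero s.ne_zero) (v.ne_zero t.ne_zero)] }
  have hg : f.ker ≤ g.ker := fun s hs => by
    have := hv _ (by rw [← Abelianization.ker_of]; exact hs) s rfl
    simp [g, this]
  obtain ⟨l, hl⟩ := (Module.Baer.of_divisible ℝ).extension_property_addMonoidHom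
    (M := Additive ((Subring.center D)ˣ ⧸ f.ker)) (N := Additive (Abelianization Dˣ))
    (MonoidHom.toAdditive (QuotientGroup.kerLift f)) (QuotientGroup.kerLift_injective f)
    (MonoidHom.toAdditiveLeft (QuotientGroup.lift f.ker g hg))
  refine ⟨⟨⟨fun x => if h : x = 0 then 0 else
    Real.exp (l (Additive.ofMul (Abelianization.of (Units.mk0 x h)))), by simp⟩, by simp,
    fun x y => ?_⟩, fun x => ?_, fun s => ?_⟩
  · by_cases hx : x = 0
    · simp [hx]
    by_cases hy : y = 0
    · simp [hy]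
    simp [hx, hy, Real.exp_add]
  · dsimp
    split_ifs
    exacts [le_rfl, (Real.exp_pos _).le]
  · by_cases hs : s = 0
    · simp [hs]
    have h1 := congr($hl (Additive.ofMul (QuotientGroup.mk (Units.mk0 s hs))))
    have h2 : algebraMap _ D s ≠ 0 := (map_ne_zero _).2 hs
    dsimp
    rw [dif_neg h2, ← Real.exp_log (v.pos hs)]
    exact congrArg Real.exp h1

theorem core_abs (M : Subgroup Dˣ) [hM : M.Normal] (hrad : Sv.Rad M)
    (hF : Subgroup.center Dˣ ≤ M) (n : ℕ) (v : AbsoluteValue (Subring.center D) ℝ)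
    (hv : v.IsNontrivial)
    (h : ∀ x ∈ derivedSeries Dˣ n, ∀ s : Subring.center D, (s : D) = x → v s = 1)
    (a : Dˣ) (ha : a ∈ M) : a ∈ Subgroup.center Dˣ := by
  by_contra hac
  have hs := QuotientGroup.mk'_surjective (derivedSeries Dˣ n)
  have : Group.IsSolvable (Dˣ ⧸ derivedSeries Dˣ n) := ⟨⟨n, by
    rw [← map_derivedSeries_eq hs, Subgroup.map_eq_bot_iff, QuotientGroup.ker_mk']⟩⟩
  obtain ⟨χ, hpos, hχ⟩ := exists_det v fun x hx s e => by
    obtain ⟨k, hk, e'⟩ := schur_tors (G := Dˣ ⧸ derivedSeries Dˣ n) (fun g => by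
      obtain ⟨g, rfl⟩ := hs g
      obtain ⟨k, hk, e⟩ := Sv.odd_of_noncentral M hrad hF a ha hac n g
      obtain ⟨y, hy, z, hz, e'⟩ := Subgroup.mem_sup_of_normal_left.1 e
      refine ⟨k, hk.pos, Subgroup.mem_center_iff.2 fun w => ?_⟩
      obtain ⟨w, rfl⟩ := hs w
      rw [← map_pow, ← e', map_mul, show QuotientGroup.mk' _ y = 1 from
        (QuotientGroup.eq_one_iff y).2 hy, one_mul, ← map_mul, ← map_mul,
        Subgroup.mem_center_iff.1 hz]) (QuotientGroup.mk' _ x) (by
      rw [commutator_def, ← Subgroup.map_top_of_surjective _ hs, ← Subgroup.map_commutator]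
      exact ⟨x, hx, rfl⟩)
    rw [← map_pow] at e'
    have := h _ ((QuotientGroup.eq_one_iff _).1 e') (s ^ k) (by simp [e])
    rwa [map_pow, pow_eq_one_iff_of_nonneg (v.nonneg _) hk.ne'] at this
  obtain ⟨k, H⟩ := hyp_of M
    ⟨1, fun i => if i = 0 then M else ⊤, rfl, rfl, fun i hi => by
      obtain rfl : i = 0 := by omega
      exact ⟨le_top, hM.subgroupOf _⟩⟩ fun x hx =>
    (hrad x hx).imp fun n h => ⟨h.1, by simpa using (Sv.mem_center_units _).1 h.2⟩
  refine hac ((Sv.mem_center_units a).2 (Subring.mem_center_iff.2 fun z =>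
    (central_of_conj (a : D) (fun x hx => (cj_eq_iff _ a.ne_zero _).1 ?_) z).symm))
  refine line_fix H χ hpos v hχ hv _ (fun s => (cj_eq_iff _ _ _).2 (Algebra.commutes s _).symm)
    (fun w hw => ⟨⟨_, M.mul_mem ha (hM.conj_mem _ (M.inv_mem ha) (Units.mk0 w hw)), by
      simp [cj_apply, mul_assoc]⟩, ?_⟩) _ ⟨_, hM.conj_mem _ ha (Units.mk0 x hx), by simp⟩
  have h1 := (map_ne_zero χ).2 hw
  have h2 := (map_ne_zero χ).2 a.ne_zero
  rw [cj_apply, map_mul, map_mul, map_mul, map_inv₀, map_inv₀]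
  field_simp

theorem main_abs (N : Subgroup Dˣ)
    (hN : ∃ (k : ℕ) (H : ℕ → Subgroup Dˣ), H 0 = N ∧ H k = ⊤ ∧
      ∀ i, i < k → H i ≤ H (i + 1) ∧ ((H i).subgroupOf (H (i + 1))).Normal)
    (hrad : ∀ x ∈ N, ∃ n : ℕ, 0 < n ∧ ((x : Dˣ) : D) ^ n ∈ Subring.center D)
    (E : Subfield D) (n : ℕ) (K : Subgroup Eˣ) (v : AbsoluteValue (Subring.center E) ℝ) (x : Eˣ)
    (hK : derivedSeries Eˣ n ≤ K)
    (hv : ∀ (u : Eˣ) (s : Subring.center E), (s : E) = u → (u ∈ K ↔ v s = 1))
    (hx : ∀ k : ℕ, Odd k → x ^ k ∉ K)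
    (a : Dˣ) (ha : a ∈ N) (haE : (a : D) ∈ E) (y : D) (hy : y ∈ E) : a * y = y * a := by
  by_cases h0 : v.IsNontrivial
  swap
  · refine Sv.main_quot N hN hrad E n x (fun k hk h => hx k hk (sup_le hK (fun u hu => ?_) h))
      a ha haE y hy
    exact (hv u ⟨u, (Sv.mem_center_units u).1 hu⟩ rfl).2 (v.not_isNontrivial_apply h0
      fun h => u.ne_zero (congrArg Subtype.val h))
  obtain ⟨k, H, h0', hk, hH⟩ := hN
  let f : Eˣ →* Dˣ := Units.map E.subtype.toMonoidHom
  obtain ⟨M, hM, h1, h2, h3⟩ := Sv.exists_hull (N.comap f)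
    ⟨k, fun i => (H i).comap f, by simp only [h0'], by simp [hk], fun i hi =>
      ⟨Subgroup.comap_mono (hH i hi).1, ⟨fun b hb g => by
        have := (hH i hi).2.conj_mem ⟨f b, b.2⟩ hb ⟨f g, g.2⟩
        simpa [Subgroup.mem_subgroupOf] using this⟩⟩⟩ (fun b hb => by
      obtain ⟨m, hm, e⟩ := hrad _ hb
      exact ⟨m, hm, (Sv.mem_center_units _).2 (Subring.mem_center_iff.2 fun z =>
        Subtype.ext (by simpa [f] using Subring.mem_center_iff.1 e z))⟩)
  let a' : Eˣ := Units.mk0 ⟨a, haE⟩ fun h => a.ne_zero (congrArg Subtype.val h)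
  exact (congrArg Subtype.val (Subring.mem_center_iff.1 ((Sv.mem_center_units _).1
    (core_abs M h3 h2 n v h0 (fun u hu s e => (hv u s e).1 (hK hu)) a' (h1 (show f a' ∈ N from by
      rwa [show f a' = a from Units.ext rfl])))) ⟨y, hy⟩)).symm

end Pool.Agent.P.MP_3fd745_al
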