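import Mathlib

/-! Commutator towers in a division ring and total subrings. -/

namespace Pool.Agent.P.MP_3fd745_al

variable {D : Type} [DivisionRing D]

/-- conjugation -/
def cj (g : D) (hg : g ≠ 0) : D →+* D where
  toFun x := g * x * g⁻¹
  map_one' := by simp [hg]
  map_mul' x y := by simp [mul_assoc, hg]
  map_zero' := by simp
  map_add' x y := by simp [mul_add, add_mul]

lemma cj_apply (g : D) (hg : g ≠ 0) (x : D) : cj g hg x = g * x * g⁻¹ := rfl

lemma cj_eq_iff (g : D) (hg : g ≠ 0) (x : D) : cj g hg x = x ↔ g * x = x * g := by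
  rw [cj_apply, mul_inv_eq_iff_eq_mul₀ hg]

lemma cj_iter (g : D) (hg : g ≠ 0) (n : ℕ) (x : D) :
    (cj g hg)^[n] x = cj (g ^ n) (pow_ne_zero n hg) x := by
  induction n with
  | zero => simp [cj_apply]
  | succ n ih =>
    rw [Function.iterate_succ_apply', ih]
    simp only [cj_apply, pow_succ', mul_inv_rev, mul_assoc]

/-- iterated commutators -/
def tw (φ : D → D) (u : D) : ℕ → D
  | 0 => u
  | i + 1 => φ (tw φ u i) * (tw φ u i)⁻¹

lemma tw_ne (φ : D →+* D) (u : D) (hu : u ≠ 0) (i : ℕ) : tw φ u i ≠ 0 := by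
  induction i with
  | zero => exact hu
  | succ i ih => exact mul_ne_zero ((map_ne_zero φ).2 ih) (inv_ne_zero ih)

lemma iter_mul (φ : D →+* D) (u w : D) (h1 : φ w = u * w) (h2 : φ u = u) (n : ℕ) :
    φ^[n] w = u ^ n * w := by
  induction n with
  | zero => simp
  | succ n ih => rw [Function.iterate_succ_apply', ih, map_mul, map_pow, h1, h2, pow_succ, mul_assoc]

lemma iter_add (φ : D →+* D) (u w : D) (h1 : φ w = w + u) (h2 : φ u = u) (n : ℕ) :
    φ^[n] w = w + n * u := by
  induction n with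
  | zero => simp
  | succ n ih =>
    rw [Function.iterate_succ_apply', ih, map_add, map_mul, map_natCast, h1, h2]
    push_cast
    noncomm_ring

/-- nonunits of a subring -/
def nu (V : Subring D) (x : D) : Prop := x ∈ V ∧ (x = 0 ∨ x⁻¹ ∉ V)

section
variable {V : Subring D}

lemma nu_zero : nu V 0 := ⟨V.zero_mem, Or.inl rfl⟩

lemma not_nu_one : ¬ nu V 1 := fun h => by
  rcases h.2 with h | h
  · exact one_ne_zero h
  · exact h (by simp)

lemma nu.mul_left {x v : D} (hx : nu V x) (hv : v ∈ V) : nu V (v * x) := by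
  refine ⟨V.mul_mem hv hx.1, ?_⟩
  by_cases h : v * x = 0
  · exact Or.inl h
  · right
    intro h'
    rcases hx.2 with h0 | h0
    · exact h (by simp [h0])
    · apply h0
      have hv0 : v ≠ 0 := left_ne_zero_of_mul h
      have : x⁻¹ = (v * x)⁻¹ * v := by simp [mul_assoc, hv0]
      rw [this]
      exact V.mul_mem h' hv

lemma nu.mul_right {x v : D} (hx : nu V x) (hv : v ∈ V) : nu V (x * v) := by
  refine ⟨V.mul_mem hx.1 hv, ?_⟩
  by_cases h : x * v = 0
  · exact Or.inl h
  · right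
    intro h'
    rcases hx.2 with h0 | h0
    · exact h (by simp [h0])
    · apply h0
      have hv0 : v ≠ 0 := right_ne_zero_of_mul h
      have : x⁻¹ = v * (x * v)⁻¹ := by simp [← mul_assoc, hv0]
      rw [this]
      exact V.mul_mem hv h'

lemma nu.neg {x : D} (hx : nu V x) : nu V (-x) := by
  simpa using hx.mul_left (V.neg_mem V.one_mem)

variable (hV : ∀ x, x ∈ V ∨ x⁻¹ ∈ V)
include hV

lemma nu.add {x y : D} (hx : nu V x) (hy : nu V y) : nu V (x + y) := by
  by_cases h1 : x = 0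
  · simpa [h1] using hy
  by_cases h2 : y = 0
  · simpa [h2] using hx
  rcases hV (x * y⁻¹) with h | h
  · have : x + y = (x * y⁻¹ + 1) * y := by simp [add_mul, mul_assoc, h2]
    rw [this]
    exact hy.mul_left (V.add_mem h V.one_mem)
  · have : x + y = (1 + (x * y⁻¹)⁻¹) * x := by simp [add_mul, mul_assoc, h1]
    rw [this]
    exact hx.mul_left (V.add_mem V.one_mem h)

lemma nu.sum {ι : Type} (s : Finset ι) (f : ι → D) (h : ∀ i ∈ s, nu V (f i)) :
    nu V (∑ i ∈ s, f i) := by
  classical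
  induction s using Finset.induction_on with
  | empty => simpa using nu_zero
  | insert a s ha ih =>
    rw [Finset.sum_insert ha]
    exact (h a (by simp)).add hV (ih fun i hi => h i (by simp [hi]))

lemma not_nu_of_one {u : D} (h : nu V (u - 1)) : ¬ nu V u := fun h' =>
  not_nu_one (V := V) (by simpa using h'.add hV h.neg)

lemma unit_of_one {u : D} (h : nu V (u - 1)) : u ∈ V ∧ u ≠ 0 ∧ u⁻¹ ∈ V := by
  have h1 : u ∈ V := by simpa using V.add_mem h.1 V.one_mem
  have h2 := not_nu_of_one hV h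
  simp only [nu, not_and, not_or, not_not] at h2
  exact ⟨h1, h2 h1⟩

lemma one_mul_nu {u w : D} (hu : nu V (u - 1)) (hw : nu V (w - 1)) : nu V (u * w - 1) := by
  have : u * w - 1 = (u - 1) * w + (w - 1) := by noncomm_ring
  rw [this]
  exact (hu.mul_right (unit_of_one hV hw).1).add hV hw

lemma one_inv_nu {u : D} (hu : nu V (u - 1)) : nu V (u⁻¹ - 1) := by
  obtain ⟨_, h2, h3⟩ := unit_of_one hV hu
  have : u⁻¹ - 1 = -((u - 1) * u⁻¹) := by simp [sub_mul, h2]
  rw [this]
  exact (hu.mul_right h3).neg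

lemma one_pow_nu {u : D} (hu : nu V (u - 1)) (n : ℕ) : nu V (u ^ n - 1) := by
  induction n with
  | zero => simpa using nu_zero
  | succ n ih => rw [pow_succ]; exact one_mul_nu hV ih hu

/-- a common denominator `1 + y + ... + y ^ (n - 1)` for one total subring -/
lemma exists_period (y : D) : ∃ d : ℕ, 0 < d ∧ ∀ t : ℕ, 0 < t →
    (∑ i ∈ Finset.range (t * d + 1), y ^ i) ≠ 0 ∧ (∑ i ∈ Finset.range (t * d + 1), y ^ i)⁻¹ ∈ V ∧
      (∑ i ∈ Finset.range (t * d + 1), y ^ i)⁻¹ * y ∈ V := by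
  by_cases hy : y ∈ V
  · have key : ∀ n : ℕ, ¬ nu V (∑ i ∈ Finset.range n, y ^ i) →
        (∑ i ∈ Finset.range n, y ^ i) ≠ 0 ∧ (∑ i ∈ Finset.range n, y ^ i)⁻¹ ∈ V ∧
          (∑ i ∈ Finset.range n, y ^ i)⁻¹ * y ∈ V := by
      intro n hn
      simp only [nu, not_and, not_or, not_not] at hn
      have := hn (V.sum_mem fun i _ => V.pow_mem hy i)
      exact ⟨this.1, this.2, V.mul_mem this.2 hy⟩
    by_cases h : ∃ d, 0 < d ∧ nu V (∑ i ∈ Finset.range d, y ^ i)
    · obtain ⟨d, hd, h⟩ := h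
      refine ⟨d, hd, fun t _ => key _ (not_nu_of_one hV ?_)⟩
      have h1 : ∀ t : ℕ, nu V (∑ i ∈ Finset.range (t * d), y ^ i) := by
        intro t
        induction t with
        | zero => simpa using nu_zero
        | succ t ih =>
          rw [add_mul, one_mul, Finset.sum_range_add]
          simp only [pow_add]
          rw [← Finset.mul_sum]
          exact ih.add hV (h.mul_left (V.pow_mem hy _))
      rw [Finset.sum_range_succ']
      simp only [pow_succ, pow_zero, add_sub_cancel_right]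
      rw [← Finset.sum_mul]
      exact (h1 t).mul_right hy
    · exact ⟨1, one_pos, fun t _ => key _ fun h' => h ⟨_, Nat.succ_pos _, h'⟩⟩
  · have hy0 : y ≠ 0 := fun h => hy (h ▸ V.zero_mem)
    have hw : nu V y⁻¹ := ⟨(hV y).resolve_left hy, Or.inr (by simpa using hy)⟩
    refine ⟨1, one_pos, fun t ht => ?_⟩
    obtain ⟨t, rfl⟩ : ∃ t', t = t' + 1 := ⟨t - 1, by omega⟩
    rw [mul_one]
    have h1 : ∀ n : ℕ, ∑ i ∈ Finset.range (n + 1), y ^ i =
        y ^ n * ∑ i ∈ Finset.range (n + 1), y⁻¹ ^ i := by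
      intro n
      induction n with
      | zero => simp
      | succ n ih =>
        rw [Finset.sum_range_succ, ih, Finset.sum_range_succ' (fun i => y⁻¹ ^ i) (n + 1), mul_add]
        simp only [pow_succ' y⁻¹]
        rw [← Finset.mul_sum, pow_succ y n, mul_assoc, mul_inv_cancel_left₀ hy0]
        simp
    have h2 : nu V ((∑ i ∈ Finset.range (t + 1 + 1), y⁻¹ ^ i) - 1) := by
      rw [Finset.sum_range_succ']
      simp only [pow_succ, pow_zero, add_sub_cancel_right]
      rw [← Finset.sum_mul]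
      exact hw.mul_left (V.sum_mem fun i _ => V.pow_mem hw.1 i)
    obtain ⟨-, h3, h4⟩ := unit_of_one hV h2
    rw [h1, mul_inv_rev, ← inv_pow]
    refine ⟨mul_ne_zero (pow_ne_zero _ hy0) h3, V.mul_mem h4 (V.pow_mem hw.1 _), ?_⟩
    rw [pow_succ y⁻¹ t, mul_assoc, mul_assoc, inv_mul_cancel₀ hy0, mul_one]
    exact V.mul_mem h4 (V.pow_mem hw.1 _)

end

/-- a common denominator for finitely many total subrings -/
lemma exists_denom (n : ℕ) (hn : 0 < n) (W : ℕ → Subring D) (hW : ∀ i x, x ∈ W i ∨ x⁻¹ ∈ W i)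
    (y : D) : ∃ r : D, r ≠ 0 ∧ ∀ i < n, r ∈ W i ∧ r * y ∈ W i := by
  choose d hd h using fun i => exists_period (hW i) y
  have hP : ∀ i < n, ∃ t, 0 < t ∧ ∏ j ∈ Finset.range n, d j = t * d i := by
    intro i hi
    obtain ⟨t, ht⟩ := Finset.dvd_prod_of_mem d (Finset.mem_range.2 hi)
    refine ⟨t, Nat.pos_of_ne_zero ?_, by rw [ht, mul_comm]⟩
    rintro rfl
    exact (Finset.prod_pos fun j _ => hd j).ne' (by simpa using ht)
  refine ⟨(∑ i ∈ Finset.range ((∏ j ∈ Finset.range n, d j) + 1), y ^ i)⁻¹, ?_, fun i hi => ?_⟩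
  · obtain ⟨t, ht, e⟩ := hP 0 hn
    rw [e]
    exact inv_ne_zero (h 0 t ht).1
  · obtain ⟨t, ht, e⟩ := hP i hi
    rw [e]
    exact (h i t ht).2

end Pool.Agent.P.MP_3fd745_al
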