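import Pool.Agent.P.MP_3fd745_al.Basic

/-! The purely inseparable case. -/

namespace Pool.Agent.P.MP_3fd745_al

variable {D : Type} [DivisionRing D]

/-- double centralizer -/
def dc (y x : D) : Prop := ∀ z, Commute y z → Commute x z

lemma dc.comm {y x x' : D} (h : dc y x) (h' : dc y x') : Commute x x' :=
  h x' (h' y (Commute.refl y)).symm

lemma dc_tw (φ : D →+* D) (y e : D) (hφ : ∀ x, dc y x → dc y (φ x)) (he : dc y e) (i : ℕ) :
    dc y (tw φ e i) := by
  induction i with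
  | zero => exact he
  | succ i ih => exact fun z hz => (hφ _ ih z hz).mul_left (ih z hz).inv_left₀

/-- descent of torsion along a commutative tower -/
lemma torsion_descent (φ : D →+* D) (n : ℕ) (hn : 0 < n) (hφn : ∀ x, φ^[n] x = x) (y e : D)
    (he0 : e ≠ 0) (hφ : ∀ x, dc y x → dc y (φ x)) (he : dc y e) (k : ℕ)
    (hk : ∃ m, 0 < m ∧ φ (tw φ e k ^ m) = tw φ e k ^ m) : ∃ m, 0 < m ∧ (φ e * e⁻¹) ^ m = 1 := by
  have hc : ∀ i m : ℕ, tw φ e (i + 1) ^ m = φ (tw φ e i ^ m) * (tw φ e i ^ m)⁻¹ := by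
    intro i m
    have h1 := dc_tw φ y e hφ he i
    have : Commute (φ (tw φ e i)) (tw φ e i)⁻¹ := ((hφ _ h1).comm h1).inv_right₀
    rw [tw, this.mul_pow, map_pow, inv_pow]
  induction k with
  | zero =>
    obtain ⟨m, hm, h⟩ := hk
    refine ⟨m, hm, ?_⟩
    have := hc 0 m
    rw [h, mul_inv_cancel₀ (pow_ne_zero _ (tw_ne φ e he0 0))] at this
    exact this
  | succ k ih =>
    apply ih
    obtain ⟨m, hm, h⟩ := hk
    have h0 : tw φ e k ^ m ≠ 0 := pow_ne_zero _ (tw_ne φ e he0 k)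
    have h1 : φ (tw φ e k ^ m) = tw φ e (k + 1) ^ m * tw φ e k ^ m := by
      rw [hc, inv_mul_cancel_right₀ h0]
    have h2 := iter_mul φ _ _ h1 h n
    rw [hφn] at h2
    have h3 : (tw φ e (k + 1) ^ m) ^ n = 1 := by
      have := mul_right_cancel₀ h0 (h2.symm.trans (one_mul _).symm)
      exact this
    refine ⟨m * n, Nat.mul_pos hm hn, ?_⟩
    rw [← pow_mul, hc] at h3
    exact (mul_inv_eq_one₀ (pow_ne_zero _ (tw_ne φ e he0 k))).1 h3

lemma frob_inj (p : ℕ) [Fact p.Prime] [CharP D p] {x y : D} (h : Commute x y) (i : ℕ)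
    (e : x ^ p ^ i = y ^ p ^ i) : x = y := by
  have := sub_pow_char_pow_of_commute p i h
  rw [e, sub_self] at this
  exact sub_eq_zero.1 (pow_eq_zero_iff (pow_ne_zero _ (Fact.out : p.Prime).ne_zero) |>.1 this)

lemma periodic_of_torsion (p : ℕ) [Fact p.Prime] [CharP D p] {z : D} {m : ℕ} (hm : 0 < m)
    (hz : z ^ m = 1) : ∃ j, 0 < j ∧ z ^ p ^ j = z := by
  have hf : (Set.range fun i : ℕ => z ^ i).Finite :=
    (isOfFinOrder_iff_pow_eq_one.2 ⟨m, hm, hz⟩).finite_powers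
  have hni : ¬ Function.Injective fun j : ℕ => z ^ p ^ j := fun h =>
    Set.infinite_range_of_injective h (hf.subset (by rintro _ ⟨j, rfl⟩; exact ⟨_, rfl⟩))
  simp only [Function.Injective, not_forall] at hni
  obtain ⟨i, j, h, hij⟩ := hni
  wlog hlt : i < j generalizing i j
  · exact this j i h.symm (Ne.symm hij) (by omega)
  refine ⟨j - i, by omega, frob_inj p ((Commute.refl z).pow_left _) i ?_⟩
  rw [← pow_mul, ← pow_add, Nat.sub_add_cancel hlt.le]
  exact h.symm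

lemma periodic_mul (p : ℕ) {z : D} {j : ℕ} (h : z ^ p ^ j = z) (t : ℕ) : z ^ p ^ (j * t) = z := by
  induction t with
  | zero => simp
  | succ t ih => rw [mul_add, mul_one, pow_add, pow_mul, ih, h]

/-- a noncentral element whose `p`-th power is central, `p` the characteristic -/
lemma exists_shift (p : ℕ) [Fact p.Prime] [CharP D p] (φ : D →+* D) (hφ : ∀ x, φ^[p] x = x)
    (w : D) (hw : φ w ≠ w) : ∃ y, φ y = y + 1 := by
  let f : Module.End ℤ D := φ.toAddMonoidHom.toIntLinearMap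
  have hf : ∀ (n : ℕ) x, (f ^ n) x = φ^[n] x := fun n x => by
    rw [Module.End.pow_apply]; rfl
  have hch : ((p : ℕ) : Module.End ℤ D) = 0 := by
    ext x
    simp [Module.End.natCast_apply]
  have hnt : Nontrivial (Module.End ℤ D) := ⟨⟨0, 1, fun h => by
    simpa using congrArg (fun g : Module.End ℤ D => g 1) h⟩⟩
  have : CharP (Module.End ℤ D) p := (CharP.charP_iff_prime_eq_zero Fact.out).2 hch
  have h1 : (f - 1) ^ p = 0 := by
    rw [sub_pow_char_of_commute p (Commute.one_right f), one_pow, sub_eq_zero]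
    ext x
    rw [hf, hφ]
    rfl
  have h2 : ∃ n : ℕ, ((f - 1) ^ (n + 1)) w = 0 :=
    ⟨p - 1, by rw [Nat.sub_add_cancel (Fact.out : p.Prime).pos, h1]; rfl⟩
  classical
  have h3 := Nat.find_spec h2
  have h4 : Nat.find h2 ≠ 0 := by
    intro h
    rw [h, zero_add, pow_one] at h3
    exact hw (sub_eq_zero.1 h3)
  obtain ⟨n, hn⟩ := Nat.exists_eq_succ_of_ne_zero h4
  have h5 := Nat.find_min h2 (show n < Nat.find h2 by omega)
  rw [hn] at h3
  set x := ((f - 1) ^ n) w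
  have e1 : ((f - 1) ^ (n + 1)) w = φ x - x := by rw [pow_succ', Module.End.mul_apply]; rfl
  have e2 : ((f - 1) ^ (n.succ + 1)) w = φ (φ x - x) - (φ x - x) := by
    rw [pow_succ', Module.End.mul_apply, e1]; rfl
  rw [e1] at h5
  rw [e2, sub_eq_zero] at h3
  refine ⟨x * (φ x - x)⁻¹, ?_⟩
  rw [map_mul, map_inv₀, h3]
  nth_rewrite 1 [← mul_inv_cancel₀ h5]
  rw [← add_mul]
  simp

lemma insep (k : ℕ) (P : D → Prop) (h0 : ∀ x, P x → x ≠ 0)
    (hrad : ∀ x, P x → ∃ n, 0 < n ∧ ∀ z, x ^ n * z = z * x ^ n)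
    (htow : ∀ a (ha : P a) u, u ≠ 0 → P (tw (cj a (h0 a ha)) u k))
    (p : ℕ) (hp : p.Prime) (hp0 : (p : D) = 0) (a : D) (ha : P a)
    (hap : ∀ z, a ^ p * z = z * a ^ p) : ∀ z, a * z = z * a := by
  have : Fact p.Prime := ⟨hp⟩
  have : CharP D p := (CharP.charP_iff_prime_eq_zero hp).2 hp0
  intro w
  by_contra hw
  set φ := cj a (h0 a ha) with hφd
  have hφ : ∀ x, φ^[p] x = x := fun x => by
    rw [cj_iter, cj_eq_iff]; exact hap x
  obtain ⟨y, hy⟩ := exists_shift p φ hφ w (fun h => hw ((cj_eq_iff _ _ _).1 h))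
  have hdc : ∀ x, dc y x → dc y (φ x) := by
    intro x hx z hz
    have h1 : φ (φ^[p - 1] z) = z := by
      rw [← Function.iterate_succ_apply' φ, Nat.succ_eq_add_one, Nat.sub_add_cancel hp.pos, hφ]
    have h2 : Commute y (φ^[p - 1] z) := by
      apply φ.injective
      rw [map_mul, map_mul, h1, hy]
      exact hz.add_left (Commute.one_left z)
    have := (hx _ h2).map φ
    rwa [h1] at this
  have key : ∀ l : D, (∀ z, l * z = z * l) → ∃ j, 0 < j ∧ (y + l) ^ p ^ j = y + l := by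
    intro l hl
    have hφl : φ l = l := (cj_eq_iff _ _ _).2 (hl a).symm
    have he : φ (y + l) = y + l + 1 := by rw [map_add, hy, hφl]; abel
    have he0 : y + l ≠ 0 := fun h => by simp [h] at he
    obtain ⟨m, hm, h⟩ := torsion_descent φ p hp.pos hφ y (y + l) he0 hdc
      (fun z hz => hz.add_left (hl z)) k (by
        obtain ⟨m, hm, h⟩ := hrad _ (htow a ha _ he0)
        exact ⟨m, hm, (cj_eq_iff _ _ _).2 (h a).symm⟩)
    rw [he, add_mul, mul_inv_cancel₀ he0, one_mul] at h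
    obtain ⟨j, hj, h⟩ := periodic_of_torsion p hm h
    refine ⟨j, hj, ?_⟩
    rw [add_pow_char_pow_of_commute p j (Commute.one_left _), one_pow, add_right_inj,
      inv_pow, inv_inj] at h
    exact h
  obtain ⟨i, hi, h1⟩ := key 0 (by simp)
  obtain ⟨j, hj, h2⟩ := key (a ^ p) hap
  rw [add_zero] at h1
  have h3 := periodic_mul p h1 j
  have h4 := periodic_mul p h2 i
  rw [mul_comm j i, add_pow_char_pow_of_commute p _ (hap y).symm, h3, add_right_inj] at h4
  have h5 : a ^ p ^ (i * j) = a := by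
    refine frob_inj p ((Commute.refl a).pow_left _) 1 ?_
    rw [pow_one, ← pow_mul, mul_comm, pow_mul, h4]
  obtain ⟨t, ht⟩ : ∃ t, i * j = t + 1 := ⟨i * j - 1, by have := Nat.mul_pos hi hj; omega⟩
  apply hw
  rw [← h5, ht, pow_succ', pow_mul]
  exact (Commute.pow_left (hap w) _)

lemma rad_coprime (k : ℕ) (P : D → Prop) (h0 : ∀ x, P x → x ≠ 0)
    (hpow : ∀ x n, P x → P (x ^ n))
    (hrad : ∀ x, P x → ∃ n, 0 < n ∧ ∀ z, x ^ n * z = z * x ^ n)
    (htow : ∀ a (ha : P a) u, u ≠ 0 → P (tw (cj a (h0 a ha)) u k)) (x : D) (hx : P x) :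
    ∃ n : ℕ, (n : D) ≠ 0 ∧ ∀ z, x ^ n * z = z * x ^ n := by
  classical
  have h := hrad x hx
  refine ⟨Nat.find h, fun hn => ?_, (Nat.find_spec h).2⟩
  obtain ⟨hpos, hc⟩ := Nat.find_spec h
  obtain ⟨p, hp⟩ := CharP.exists D
  have hd : p ∣ Nat.find h := (CharP.cast_eq_zero_iff D p _).1 hn
  have hp0 : p ≠ 0 := by rintro rfl; omega
  have hpp : p.Prime := (CharP.char_is_prime_or_zero D p).resolve_right hp0
  obtain ⟨t, ht⟩ := hd
  have ht0 : 0 < t := Nat.pos_of_ne_zero (by rintro rfl; omega)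
  refine Nat.find_min h (m := t) (by rw [ht]; exact lt_mul_left ht0 hpp.one_lt) ⟨ht0, ?_⟩
  refine insep k P h0 hrad htow p hpp (CharP.cast_eq_zero D p) _ (hpow x t hx) ?_
  rw [← pow_mul, mul_comm t p, ← ht]
  exact hc

end Pool.Agent.P.MP_3fd745_al
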