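import Pool.Agent.P.MP_3fd745_al.Cen

/-! Ideals of subrings for which Nakayama's lemma holds. -/

namespace Pool.Agent.P.MP_3fd745_al

variable {D : Type} [DivisionRing D]

/-- a quasi-regular ideal `P` of a subring `O`, both stable under `φ` -/
structure QR (φ : D →+* D) (O : Subring D) (P : AddSubgroup D) : Prop where
  le : ∀ x ∈ P, x ∈ O
  hl : ∀ r ∈ O, ∀ x ∈ P, r * x ∈ P
  hr : ∀ r ∈ O, ∀ x ∈ P, x * r ∈ P
  hO : ∀ x ∈ O, φ x ∈ O
  hP : ∀ x ∈ P, φ x ∈ P
  hq : ∀ x ∈ P, 1 + x ≠ 0 ∧ (1 + x)⁻¹ ∈ O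

lemma QR.pow {φ : D →+* D} {O : Subring D} {P : AddSubgroup D} (h : QR φ O P)
    (hz : ∀ x ∈ P, (∀ z, x * z = z * x) → x = 0) (e : D) (he : e ∈ P) (m : ℕ) (hm : (m : D) ≠ 0)
    (hc : ∀ z, (1 + e) ^ m * z = z * (1 + e) ^ m) : e = 0 := by
  have key : ∀ j : ℕ, ∃ ρ ∈ P, (1 + e) ^ j = 1 + e * (j + ρ) := by
    intro j
    induction j with
    | zero => exact ⟨0, P.zero_mem, by simp⟩
    | succ j ih =>
      obtain ⟨ρ, hρ, h1⟩ := ih
      refine ⟨ρ + (j + ρ) * e, P.add_mem hρ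
        (h.hl _ (O.add_mem (natCast_mem O j) (h.le _ hρ)) _ he), ?_⟩
      rw [pow_succ, h1]
      push_cast
      noncomm_ring
  obtain ⟨ρ, hρ, h1⟩ := key m
  have h2 := hz (e * (m + ρ)) (h.hr _ (O.add_mem (natCast_mem O m) (h.le _ hρ)) _ he) fun z => by
    have := hc z
    rw [h1, add_mul, mul_add z, one_mul, mul_one, add_right_inj] at this
    exact this
  refine (mul_eq_zero.1 h2).resolve_right fun h3 => hm (hz _ ?_ fun z => (Nat.cast_commute m z).eq)
  rw [eq_neg_of_add_eq_zero_left h3]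
  exact P.neg_mem hρ

lemma QR.free {φ : D →+* D} {O : Subring D} {P : AddSubgroup D} (h : QR φ O P)
    (hz : ∀ x ∈ P, (∀ z, x * z = z * x) → x = 0) (n : ℕ) (hn : (n : D) ≠ 0)
    (hφn : ∀ x, φ^[n] x = x) (k : ℕ)
    (hk : ∀ u, u ≠ 0 → ∃ m : ℕ, (m : D) ≠ 0 ∧ ∀ z, tw φ u k ^ m * z = z * tw φ u k ^ m)
    (b : D) (hb : b ∈ P) : φ b = b := by
  have hu0 := (h.hq b hb).1
  have ht : ∀ i, ∃ e ∈ P, tw φ (1 + b) i = 1 + e := by
    intro i
    induction i with
    | zero => exact ⟨b, hb, rfl⟩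
    | succ i ih =>
      obtain ⟨e, he, h1⟩ := ih
      obtain ⟨h2, h3⟩ := h.hq e he
      refine ⟨(φ e - e) * (1 + e)⁻¹, h.hr _ h3 _ (P.sub_mem (h.hP e he) he), ?_⟩
      rw [tw, h1, map_add, map_one, show 1 + φ e = (1 + e) + (φ e - e) by abel, add_mul,
        mul_inv_cancel₀ h2]
  have hd : ∀ i, φ (tw φ (1 + b) i) = tw φ (1 + b) i → φ b = b := by
    intro i
    induction i with
    | zero => intro h1; simpa [tw] using h1
    | succ i ih =>
      intro h1
      have h0 := tw_ne φ _ hu0 i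
      have h2 : φ (tw φ (1 + b) i) = tw φ (1 + b) (i + 1) * tw φ (1 + b) i := by
        rw [tw, inv_mul_cancel_right₀ h0]
      have h3 := iter_mul φ _ _ h2 h1 n
      rw [hφn, eq_comm, mul_eq_right₀ h0] at h3
      obtain ⟨e, he, h4⟩ := ht (i + 1)
      rw [h4] at h3
      rw [h4, h.pow hz e he n hn (by simp [h3]), add_zero, one_mul] at h2
      exact ih h2
  obtain ⟨e, he, h4⟩ := ht k
  obtain ⟨m, hm, h5⟩ := hk _ hu0
  rw [h4] at h5
  exact hd k (by rw [h4, h.pow hz e he m hm h5, add_zero, map_one])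

lemma QR.div {φ : D →+* D} {O : Subring D} {P : AddSubgroup D} (h : QR φ O P)
    (hφZ : ∀ s : D, (∀ z, s * z = z * s) → φ s = s) (k : ℕ)
    (hk : ∀ u, u ≠ 0 → ∃ m : ℕ, (m : D) ≠ 0 ∧ ∀ z, tw φ u k ^ m * z = z * tw φ u k ^ m)
    (b : D) (hb : b ∈ P) (w : D) (hw : w ∈ P) (hw0 : w ≠ 0) (hwc : ∀ z, w * z = z * w) :
    w⁻¹ * (fun x => φ x - x)^[k + 1] b ∈ O := by
  set d := (fun x => φ x - x)^[k + 1] b with hdd
  let I : Ideal ℤ :=
    { carrier := {m | ∃ r ∈ O, (m : D) * d = w * r}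
      add_mem' := by
        rintro x y ⟨r, hr, h⟩ ⟨r', hr', h'⟩
        exact ⟨r + r', O.add_mem hr hr', by rw [Int.cast_add, add_mul, h, h', mul_add]⟩
      zero_mem' := ⟨0, O.zero_mem, by simp⟩
      smul_mem' := by
        rintro c x ⟨r, hr, h⟩
        exact ⟨c * r, O.mul_mem (intCast_mem O c) hr, by
          rw [smul_eq_mul, Int.cast_mul, mul_assoc, h, ← mul_assoc, ← hwc, mul_assoc]⟩ }
  obtain ⟨g, hg⟩ := (IsPrincipalIdealRing.principal I).principal
  by_cases hg1 : g.natAbs = 1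
  · have : (1 : ℤ) ∈ I := by
      rw [hg]
      exact Ideal.mem_span_singleton.2 (Int.isUnit_iff_natAbs_eq.2 hg1).dvd
    obtain ⟨r, hr, h1⟩ := this
    rw [Int.cast_one, one_mul] at h1
    rw [h1, inv_mul_cancel_left₀ hw0]
    exact hr
  exfalso
  obtain ⟨q, hq, hqg⟩ := Nat.exists_prime_and_dvd hg1
  have hd : ∀ m : ℕ, ∀ r ∈ O, (m : D) * d = w * r → q ∣ m := fun m r hr h => by
    have : (m : ℤ) ∈ I := ⟨r, hr, by simpa using h⟩
    rw [hg] at this
    exact hqg.trans (Int.natAbs_dvd_natAbs.2 (Ideal.mem_span_singleton.1 this))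
  obtain ⟨t0, h1, h2, h3, h4⟩ : ∃ t0 : D, t0 ≠ 0 ∧ t0 ∈ O ∧ (∀ z, t0 * z = z * t0) ∧
      ((q : D) = 0 ∨ ∃ s ∈ O, t0 = q * s) := by
    by_cases hq0 : (q : D) = 0
    · exact ⟨1, one_ne_zero, O.one_mem, by simp, Or.inl hq0⟩
    · exact ⟨q, hq0, natCast_mem O q, fun z => (Nat.cast_commute q z).eq,
        Or.inr ⟨1, O.one_mem, by simp⟩⟩
  have htc : ∀ z, w * t0 * z = z * (w * t0) := fun z => Commute.mul_left (hwc z) (h3 z)
  have htO : w * t0 ∈ O := O.mul_mem (h.le w hw) h2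
  obtain ⟨hu0, hu⟩ := h.hq _ (h.hl _ htO b hb)
  have hφt := hφZ _ htc
  obtain ⟨h5, -, r, hr, h6⟩ := cen_tower φ O h.hO (w * t0) htO (fun r _ => htc r) hφt b
    (h.le b hb) hu0 hu k
  obtain ⟨m, hm, h7⟩ := hk _ hu0
  have h8 := hφZ _ h7
  rw [map_pow, h6, map_add, map_one, map_mul, hφt] at h8
  rw [Function.iterate_succ_apply'] at hdd
  generalize (fun x => φ x - x)^[k] b = y at *
  have he : y + w * t0 * r ∈ O := O.add_mem h5 (O.mul_mem htO hr)
  refine cen_pow_ne O w d (h.le w hw) (fun r _ => hwc r) q hq hd m hm (w * t0) t0 1 _ _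
    (t0 * (φ r - r)) (mul_ne_zero hw0 h1) h2 (fun x _ => htc x) rfl h4
    (fun h => hq.one_lt.ne' (Nat.dvd_one.1 h)) he (h.hO _ he)
    (O.mul_mem h2 (O.sub_mem (h.hO _ hr) hr)) ?_ h8
  rw [map_add, map_mul, hφt, hdd]
  push_cast
  noncomm_ring

/-- a stable quasi-regular ideal is fixed pointwise -/
lemma QR.fix {φ : D →+* D} {O : Subring D} {P : AddSubgroup D} (h : QR φ O P)
    (hφZ : ∀ s : D, (∀ z, s * z = z * s) → φ s = s) (n : ℕ) (hn : (n : D) ≠ 0)
    (hφn : ∀ x, φ^[n] x = x) (k : ℕ)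
    (hk : ∀ u, u ≠ 0 → ∃ m : ℕ, (m : D) ≠ 0 ∧ ∀ z, tw φ u k ^ m * z = z * tw φ u k ^ m)
    (b : D) (hb : b ∈ P) : φ b = b := by
  let P' : AddSubgroup D :=
    { carrier := {x | x ∈ P ∧ ∀ w ∈ P, w ≠ 0 → (∀ z, w * z = z * w) → w⁻¹ * x ∈ O}
      add_mem' := fun {x y} hx hy => ⟨P.add_mem hx.1 hy.1, fun w h1 h2 h3 => by
        rw [mul_add]; exact O.add_mem (hx.2 w h1 h2 h3) (hy.2 w h1 h2 h3)⟩
      zero_mem' := ⟨P.zero_mem, fun w _ _ _ => by simp⟩
      neg_mem' := fun {x} hx => ⟨P.neg_mem hx.1, fun w h1 h2 h3 => by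
        rw [mul_neg]; exact O.neg_mem (hx.2 w h1 h2 h3)⟩ }
  have h' : QR φ O P' :=
    { le := fun x hx => h.le x hx.1
      hl := fun r hr x hx => ⟨h.hl r hr x hx.1, fun w h1 h2 h3 => by
        rw [← mul_assoc, (Commute.inv_left₀ (h3 r)).eq, mul_assoc]
        exact O.mul_mem hr (hx.2 w h1 h2 h3)⟩
      hr := fun r hr x hx => ⟨h.hr r hr x hx.1, fun w h1 h2 h3 => by
        rw [← mul_assoc]; exact O.mul_mem (hx.2 w h1 h2 h3) hr⟩
      hO := h.hO
      hP := fun x hx => ⟨h.hP x hx.1, fun w h1 h2 h3 => by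
        rw [← hφZ w h3, ← map_inv₀, ← map_mul]; exact h.hO _ (hx.2 w h1 h2 h3)⟩
      hq := fun x hx => h.hq x hx.1 }
  have hz : ∀ x ∈ P', (∀ z, x * z = z * x) → x = 0 := by
    intro x hx hc
    by_contra h0
    have h1 := hx.2 (x * x) (h.hl _ (h.le x hx.1) _ hx.1) (mul_ne_zero h0 h0)
      fun z => Commute.mul_left (hc z) (hc z)
    rw [mul_inv_rev, inv_mul_cancel_right₀ h0] at h1
    have h2 := h.hq _ (P.neg_mem (h.hl _ h1 _ hx.1))
    rw [inv_mul_cancel₀ h0, add_neg_cancel] at h2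
    exact h2.1 rfl
  have hP : ∀ i, (fun x => φ x - x)^[i] b ∈ P := fun i => by
    induction i with
    | zero => exact hb
    | succ i ih => rw [Function.iterate_succ_apply']; exact P.sub_mem (h.hP _ ih) ih
  have h1 := h'.free hz n hn hφn k hk _
    ⟨hP (k + 1), fun w h1 h2 h3 => h.div hφZ k hk b hb w h1 h2 h3⟩
  by_contra hne
  refine delta_ne φ n hn hφn b hne (k + 1) ?_
  rw [Function.iterate_succ_apply', h1, sub_self]

/-- right multiplication as a linear map -/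
def rmul (O : Subring D) (x : D) : D →ₗ[O] D where
  toFun l := l * x
  map_add' a b := add_mul a b _
  map_smul' c a := by simp only [RingHom.id_apply, Subring.smul_def, smul_eq_mul, mul_assoc]

lemma rmul_comp (O : Subring D) (x y : D) (L : Submodule O D) :
    L.map (rmul O (x * y)) = (L.map (rmul O x)).map (rmul O y) := by
  rw [← Submodule.map_comp]
  congr 1
  ext l
  exact (mul_assoc l x y).symm

lemma rmul_add (O : Subring D) (x y : D) (L : Submodule O D) :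
    L.map (rmul O (x + y)) ≤ L.map (rmul O x) ⊔ L.map (rmul O y) := by
  rintro _ ⟨l, hl, rfl⟩
  change l * (x + y) ∈ _
  rw [mul_add]
  exact Submodule.add_mem_sup ⟨l, hl, rfl⟩ ⟨l, hl, rfl⟩

lemma rmul_neg (O : Subring D) (x : D) (L : Submodule O D) :
    L.map (rmul O (-x)) ≤ L.map (rmul O x) := by
  rintro _ ⟨l, hl, rfl⟩
  exact ⟨-l, L.neg_mem hl, (neg_mul_comm l x)⟩

section
variable (O : Subring D) (I : Ideal O) (L : Submodule O D)

/-- finitely generated modules generated by `L` modulo `I` -/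
def Cl (A : Submodule O D) : Prop := A.FG ∧ A ≤ L ⊔ I • A

/-- the multipliers of the closure of `L` -/
def InO (x : D) : Prop := ∃ A, Cl O I L A ∧ L.map (rmul O x) ≤ A

/-- the small multipliers -/
def InP (x : D) : Prop := ∃ A, Cl O I L A ∧ L.map (rmul O x) ≤ I • A

variable {O I L}

lemma Cl.sup {A B : Submodule O D} (hA : Cl O I L A) (hB : Cl O I L B) : Cl O I L (A ⊔ B) :=
  ⟨hA.1.sup hB.1, sup_le
    (hA.2.trans (sup_le_sup_left (smul_mono_right _ le_sup_left) _))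
    (hB.2.trans (sup_le_sup_left (smul_mono_right _ le_sup_right) _))⟩

lemma Cl.mul {A B : Submodule O D} (hA : Cl O I L A) (hB : Cl O I L B) {x : D}
    (hx : L.map (rmul O x) ≤ B) : Cl O I L (A.map (rmul O x) ⊔ B) := by
  have h2 : B ≤ L ⊔ I • (A.map (rmul O x) ⊔ B) :=
    hB.2.trans (sup_le_sup_left (smul_mono_right _ le_sup_right) _)
  refine ⟨(hA.1.map _).sup hB.1, sup_le ((Submodule.map_mono hA.2).trans ?_) h2⟩
  rw [Submodule.map_sup, Submodule.map_smul'']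
  exact sup_le (hx.trans h2) (le_sup_of_le_right (smul_mono_right _ le_sup_left))

lemma InP.inO {x : D} (h : InP O I L x) : InO O I L x :=
  h.imp fun _ h => ⟨h.1, h.2.trans Submodule.smul_le_right⟩

lemma InO.mul {x y : D} (hx : InO O I L x) (hy : InO O I L y) : InO O I L (x * y) := by
  obtain ⟨A, hA, h1⟩ := hx
  obtain ⟨B, hB, h2⟩ := hy
  exact ⟨_, hA.mul hB h2, (rmul_comp O x y L).trans_le
    ((Submodule.map_mono h1).trans le_sup_left)⟩

lemma InP.mul_right {x y : D} (hx : InP O I L x) (hy : InO O I L y) : InP O I L (x * y) := by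
  obtain ⟨A, hA, h1⟩ := hx
  obtain ⟨B, hB, h2⟩ := hy
  refine ⟨_, hA.mul hB h2, (rmul_comp O x y L).trans_le ((Submodule.map_mono h1).trans ?_)⟩
  rw [Submodule.map_smul'']
  exact smul_mono_right _ le_sup_left

lemma InP.mul_left {x y : D} (hx : InO O I L x) (hy : InP O I L y) : InP O I L (x * y) := by
  obtain ⟨A, hA, h1⟩ := hx
  obtain ⟨B, hB, h2⟩ := hy
  refine ⟨_, hA.mul hB (h2.trans Submodule.smul_le_right), (rmul_comp O x y L).trans_le
    ((Submodule.map_mono (h1.trans hA.2)).trans ?_)⟩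
  rw [Submodule.map_sup, Submodule.map_smul'']
  exact sup_le (h2.trans (smul_mono_right _ le_sup_right)) (smul_mono_right _ le_sup_left)

lemma InP.inv (hN : ∀ A : Submodule O D, A.FG → A ≤ I • A → A = ⊥) (hL : L.FG) (h1 : (1 : D) ∈ L)
    {x : D} (hx : InP O I L x) : 1 + x ≠ 0 ∧ InO O I L (1 + x)⁻¹ := by
  obtain ⟨A, hA, h2⟩ := hx
  have h0 : 1 + x ≠ 0 := fun h => by
    have h3 : L ≤ I • A := fun l hl => h2 ⟨-l, L.neg_mem hl, by
      change -l * x = l
      rw [eq_neg_of_add_eq_zero_right h, neg_mul_neg, mul_one]⟩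
    have h4 := h3 h1
    rw [hN A hA.1 (hA.2.trans (sup_le h3 le_rfl)), Submodule.smul_bot] at h4
    exact one_ne_zero h4
  have h3 : L.map (rmul O (1 + x)⁻¹) ≤
      L ⊔ I • (L.map (rmul O (1 + x)⁻¹) ⊔ A.map (rmul O (1 + x)⁻¹)) := by
    rintro _ ⟨l, hl, rfl⟩
    have e : rmul O (1 + x)⁻¹ l = l + rmul O (1 + x)⁻¹ (rmul O x (-l)) := by
      change l * (1 + x)⁻¹ = l + -l * x * (1 + x)⁻¹
      rw [← mul_inv_cancel_right₀ h0 l]
      simp only [mul_inv_cancel_right₀ h0]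
      rw [eq_comm, ← sub_eq_zero, show l + -l * x * (1 + x)⁻¹ - l * (1 + x)⁻¹ =
        l - l * (1 + x) * (1 + x)⁻¹ by noncomm_ring, mul_inv_cancel_right₀ h0, sub_self]
    rw [e]
    have h4 : I • A.map (rmul O (1 + x)⁻¹) ≤
        I • (L.map (rmul O (1 + x)⁻¹) ⊔ A.map (rmul O (1 + x)⁻¹)) := smul_mono_right _ le_sup_right
    refine Submodule.add_mem_sup hl (h4 ?_)
    rw [← Submodule.map_smul'']
    exact ⟨_, h2 ⟨-l, L.neg_mem hl, rfl⟩, rfl⟩
  refine ⟨h0, _, ⟨(hL.map _).sup (hA.1.map _), sup_le h3 ((Submodule.map_mono hA.2).trans ?_)⟩,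
    le_sup_left⟩
  rw [Submodule.map_sup, Submodule.map_smul'']
  exact sup_le h3 (le_sup_of_le_right (smul_mono_right _ le_sup_right))

end

/-- the stable pair attached to a finitely generated module -/
lemma exists_QR (φ : D →+* D) (O : Subring D) (I : Ideal O)
    (hN : ∀ A : Submodule O D, A.FG → A ≤ I • A → A = ⊥) (L : Submodule O D) (hL : L.FG)
    (h1 : (1 : D) ∈ L) : ∃ (O' : Subring D) (P : AddSubgroup D), QR φ O' P ∧
      ∀ x, (∀ i : ℕ, ∀ l ∈ L, l * φ^[i] x ∈ I • L) → x ∈ P := by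
  have hC : Cl O I L L := ⟨hL, le_sup_left⟩
  have hz : ∀ A : Submodule O D, L.map (rmul O 0) ≤ A := by
    rintro A _ ⟨l, -, rfl⟩
    change l * 0 ∈ A
    rw [mul_zero]
    exact A.zero_mem
  let O' : Subring D :=
    { carrier := {x | ∀ i : ℕ, InO O I L ((φ ^ i) x)}
      mul_mem' := fun {x y} hx hy i => by rw [map_mul]; exact (hx i).mul (hy i)
      one_mem' := fun i => ⟨L, hC, by
        rintro _ ⟨l, hl, rfl⟩
        change l * _ ∈ L
        rwa [map_one, mul_one]⟩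
      add_mem' := fun {x y} hx hy i => by
        obtain ⟨A, hA, h2⟩ := hx i
        obtain ⟨B, hB, h3⟩ := hy i
        rw [map_add]
        exact ⟨_, hA.sup hB, (rmul_add O _ _ L).trans (sup_le_sup h2 h3)⟩
      zero_mem' := fun i => ⟨L, hC, by rw [map_zero]; exact hz _⟩
      neg_mem' := fun {x} hx i => by
        rw [map_neg]; exact (hx i).imp fun A h => ⟨h.1, (rmul_neg O _ L).trans h.2⟩ }
  let P : AddSubgroup D :=
    { carrier := {x | ∀ i : ℕ, InP O I L ((φ ^ i) x)}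
      add_mem' := fun {x y} hx hy i => by
        obtain ⟨A, hA, h2⟩ := hx i
        obtain ⟨B, hB, h3⟩ := hy i
        rw [map_add]
        exact ⟨_, hA.sup hB, (rmul_add O _ _ L).trans (sup_le
          (h2.trans (smul_mono_right _ le_sup_left)) (h3.trans (smul_mono_right _ le_sup_right)))⟩
      zero_mem' := fun i => ⟨L, hC, by rw [map_zero]; exact hz _⟩
      neg_mem' := fun {x} hx i => by
        rw [map_neg]; exact (hx i).imp fun A h => ⟨h.1, (rmul_neg O _ L).trans h.2⟩ }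
  refine ⟨O', P, ⟨fun x hx i => (hx i).inO, fun r hr x hx i => ?_, fun r hr x hx i => ?_,
    fun x hx i => hx (i + 1), fun x hx i => hx (i + 1),
    fun x hx => ⟨((hx 0).inv hN hL h1).1, fun i => ?_⟩⟩, fun x hx i => ⟨L, hC, ?_⟩⟩
  · rw [map_mul]; exact InP.mul_left (hr i) (hx i)
  · rw [map_mul]; exact (hx i).mul_right (hr i)
  · rw [map_inv₀, map_add, map_one]; exact ((hx i).inv hN hL h1).2
  · rintro _ ⟨l, hl, rfl⟩
    rw [← iter_hom]
    exact hx i l hl

theorem main_rad (N : Subgroup Dˣ)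
    (hN : ∃ (k : ℕ) (H : ℕ → Subgroup Dˣ), H 0 = N ∧ H k = ⊤ ∧
      ∀ i, i < k → H i ≤ H (i + 1) ∧ ((H i).subgroupOf (H (i + 1))).Normal)
    (hrad : ∀ x ∈ N, ∃ n : ℕ, 0 < n ∧ ((x : Dˣ) : D) ^ n ∈ Subring.center D)
    (E : Subfield D)
    (hE : ∀ S : Finset D, (∀ x ∈ S, x ∈ E) → ∃ (O : Subring D) (I : Ideal O) (s : D),
      I ≠ ⊥ ∧ (∀ A : Submodule O D, A.FG → A ≤ I • A → A = ⊥) ∧ s ≠ 0 ∧ ∀ x ∈ S, x * s ∈ O)
    (a : Dˣ) (ha : a ∈ N) (haE : (a : D) ∈ E) (y : D) (hy : y ∈ E) : a * y = y * a := by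
  classical
  obtain ⟨k, H⟩ := hyp_of N hN hrad
  have hP : (fun x : D => ∃ g ∈ N, (g : D) = x) a := ⟨a, ha, rfl⟩
  have ha0 := a.ne_zero
  generalize (a : D) = c at *
  obtain ⟨n, hn, hc⟩ := H.cop c hP
  have hn0 : 0 < n := Nat.pos_of_ne_zero (by rintro rfl; simp at hn)
  have hφn : ∀ x, (cj c ha0)^[n] x = x := fun x => by rw [cj_iter, cj_eq_iff, hc]
  obtain ⟨O, I, s, hJ, hI, hs, hS⟩ := hE (((Finset.range n ×ˢ Finset.range n) ×ˢ {1, y}).image
    fun p : (ℕ × ℕ) × D => (c ^ p.1.1)⁻¹ * c ^ p.1.2 * p.2) (by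
      intro x hx
      obtain ⟨p, hp, rfl⟩ := Finset.mem_image.1 hx
      refine E.mul_mem (E.mul_mem (E.inv_mem (E.pow_mem haE _)) (E.pow_mem haE _)) ?_
      have := (Finset.mem_product.1 hp).2
      rw [Finset.mem_insert, Finset.mem_singleton] at this
      rcases this with h | h <;> rw [h]
      exacts [E.one_mem, hy])
  obtain ⟨j, hj, hj0⟩ := Submodule.exists_mem_ne_zero_of_ne_bot hJ
  let L : Submodule O D :=
    Submodule.span O ((Finset.range n).image fun i : ℕ => (c ^ i)⁻¹ : Finset D)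
  have hLm : ∀ i < n, (c ^ i)⁻¹ ∈ L := fun i hi => Submodule.subset_span (by
    simp only [Finset.coe_image, Finset.coe_range]; exact ⟨i, hi, rfl⟩)
  obtain ⟨O', P, hQ, hPm⟩ := exists_QR (cj c ha0) O I hI L
    (Submodule.fg_span (Finset.finite_toSet _)) (by simpa using hLm 0 hn0)
  have key : ∀ v ∈ ({1, y} : Finset D), c * (v * (s * j)) = v * (s * j) * c := by
    intro v hv
    rw [← cj_eq_iff c ha0]
    refine hQ.fix (fun s hs => (cj_eq_iff _ _ _).2 (hs c).symm) n hn hφn k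
      (fun u hu => H.cop _ (H.htow c ha0 hP u hu)) _ (hPm _ fun i l hl => ?_)
    rw [iter_mod _ n hφn, cj_iter, cj_apply]
    have hi := Nat.mod_lt i hn0
    generalize i % n = i at *
    induction hl using Submodule.span_induction with
    | mem l hl =>
      simp only [Finset.coe_image, Finset.coe_range] at hl
      obtain ⟨m, hm, rfl⟩ := hl
      have h2 := hS _ (Finset.mem_image.2 ⟨((m, i), v), Finset.mem_product.2
        ⟨Finset.mem_product.2 ⟨Finset.mem_range.2 hm, Finset.mem_range.2 hi⟩, hv⟩, rfl⟩)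
      have h3 := Submodule.smul_mem_smul (Ideal.mul_mem_left _ ⟨_, h2⟩ hj) (hLm i hi)
      simpa only [Subring.smul_def, smul_eq_mul, Subring.coe_mul, mul_assoc] using h3
    | zero => simp
    | add x z _ _ hx hz => rw [add_mul]; exact Submodule.add_mem _ hx hz
    | smul r x _ hx =>
      have := Submodule.smul_mem _ r hx
      simpa only [Subring.smul_def, smul_eq_mul, mul_assoc] using this
  have h1 := key 1 (by simp)
  have h2 := key y (by simp)
  have h0 : s * (j : D) ≠ 0 := mul_ne_zero hs fun h => hj0 (Subtype.ext h)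
  rw [one_mul] at h1
  refine mul_right_cancel₀ h0 ?_
  rw [mul_assoc, h2, mul_assoc, ← h1, mul_assoc]

end Pool.Agent.P.MP_3fd745_al
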