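import Pool.Agent.P.MP_3fd745_al.Len2
import Pool.Agent.P.MP_3fd745_al.Cen
import Pool.Agent.P.MP_3fd745_al.Rad
import Pool.Agent.P.MP_3fd745_al.Sv.Hull

/-! Quotient division rings of domains with right Krull dimension. -/

namespace Pool.Agent.P.MP_3fd745_al

open Pointwise

variable {D : Type} [DivisionRing D]

/-- a subring containing `R`, as a right `R`-module -/
def rmod (R O : Subring D) (h : R ≤ O) : Submodule R.op D where
  carrier := O
  add_mem' := O.add_mem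
  zero_mem' := O.zero_mem
  smul_mem' c _ hx := O.mul_mem hx (h c.2)

/-- the left multipliers of a right module -/
def lstab {R : Subring D} (L : Submodule R.op D) : Subring D where
  carrier := {g | ∀ x ∈ L, g * x ∈ L}
  mul_mem' hg hh x hx := by rw [mul_assoc]; exact hg _ (hh x hx)
  one_mem' x hx := by rwa [one_mul]
  add_mem' hg hh x hx := by rw [add_mul]; exact L.add_mem (hg x hx) (hh x hx)
  zero_mem' x _ := by rw [zero_mul]; exact L.zero_mem
  neg_mem' hg x hx := by rw [neg_mul]; exact L.neg_mem (hg x hx)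

/-- the right module generated by the powers of `m` -/
def pmod (R : Subring D) (m : D) : Submodule R.op D := Submodule.span R.op (Set.range (m ^ ·))

lemma pmod_stab (R : Subring D) (m : D) : m ∈ lstab (pmod R m) := fun x hx => by
  induction hx using Submodule.span_induction with
  | mem x hx =>
    obtain ⟨i, rfl⟩ := hx
    exact Submodule.subset_span ⟨i + 1, pow_succ' m i⟩
  | zero => simp
  | add x y _ _ hx hy => rw [mul_add]; exact add_mem hx hy
  | smul c x _ hx => exact (mul_assoc m x c.1.unop) ▸ Submodule.smul_mem _ c hx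

lemma rsmul_le {R : Subring D} {g : D} {A B : Submodule R.op D} :
    g • A ≤ B ↔ ∀ x ∈ A, g * x ∈ B :=
  ⟨fun h x hx => h ⟨x, hx, rfl⟩, fun h _ ⟨x, hx, e⟩ => e ▸ h x hx⟩

lemma common_den (R : Subring D) (hQ : ∀ x : D, ∃ s ∈ R, s ≠ 0 ∧ x * s ∈ R) (S : Finset D) :
    ∃ s ∈ R, s ≠ 0 ∧ ∀ x ∈ S, x * s ∈ R := by
  classical
  induction S using Finset.induction_on with
  | empty => exact ⟨1, R.one_mem, one_ne_zero, by simp⟩
  | insert x S _ ih =>
    obtain ⟨s, h1, h2, h3⟩ := ih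
    obtain ⟨t, h4, h5, h6⟩ := hQ (x * s)
    refine ⟨s * t, R.mul_mem h1 h4, mul_ne_zero h2 h5, Finset.forall_mem_insert _ _ _ |>.2
      ⟨by rwa [← mul_assoc], fun z hz => ?_⟩⟩
    rw [← mul_assoc]
    exact R.mul_mem (h3 z hz) h4

lemma pick_x (M : Subgroup Dˣ) [hM : M.Normal] (R : Subring D)
    (hQ : ∀ x : D, ∃ s ∈ R, s ≠ 0 ∧ x * s ∈ R) (a : Dˣ) (ha : a ∈ M) (y : D)
    (hy : (a : D) * y ≠ y * a) (t : D) (t2 : t ≠ 0) : ∃ q ∈ R, ∃ x0 ∈ R, ∃ x, ∃ b ∈ M, ∃ c ∈ M,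
      q ≠ 0 ∧ a * q ∈ R ∧ x = t * (a * q) * q * x0 ∧ ¬ Commute (a : D) x ∧ (b : D) * x = x * a ∧
      (c : D) * (x + 1) = (x + 1) * a := by
  obtain ⟨q, q1, q2, p1⟩ := hQ a
  obtain ⟨x0, x1, x2⟩ : ∃ x0 ∈ R, ¬ Commute (a : D) (t * (a * q) * q * x0) := by
    by_contra hc
    push Not at hc
    have h0 : t * (a * q) * q ≠ 0 := by simp [t2, q2]
    have h1 : ∀ z ∈ R, Commute (a : D) z := fun z hz => by
      simpa [h0, -mul_inv_rev] using (hc 1 R.one_mem).inv_right₀.mul_right (hc z hz)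
    obtain ⟨s, s1, s2, s3⟩ := hQ y
    exact hy (by simpa [s2] using ((h1 _ s3).mul_right (h1 s s1).inv_right₀).eq)
  obtain ⟨x, hx⟩ : ∃ x, x = t * (a * q) * q * x0 := ⟨_, rfl⟩
  rw [← hx] at x2
  have hx0 : x ≠ 0 := by rintro rfl; exact x2 (Commute.zero_right _)
  have hx1 : x + 1 ≠ 0 := fun h => x2 (eq_neg_of_add_eq_zero_left h ▸ Commute.neg_one_right _)
  exact ⟨q, q1, x0, x1, x, _, hM.conj_mem a ha (Units.mk0 x hx0), _,
    hM.conj_mem a ha (Units.mk0 _ hx1), q2, p1, hx, x2, by simp [hx0], by simp [hx1]⟩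

theorem core_len (M : Subgroup Dˣ) (R : Subring D)
    (hK : ∀ f : ℚ → Submodule R.op D, StrictMono f → ¬ ∀ q, f q ≤ rmod R R le_rfl)
    (a : Dˣ) (ha : a ∈ M) (t q x0 x : D) (b c : Dˣ) (hb : b ∈ M) (hc : c ∈ M) (t1 : t ∈ R)
    (t2 : t ≠ 0) (t3 : t⁻¹ ∉ R) (q1 : q ∈ R) (x1 : x0 ∈ R) (q2 : q ≠ 0) (p1 : a * q ∈ R)
    (hx : x = t * (a * q) * q * x0) (x2 : ¬ Commute (a : D) x) (e1 : (b : D) * x = x * a)
    (e2 : (c : D) * (x + 1) = (x + 1) * a) (dd : Dˣ → ℕ) (hdd : ∀ m ∈ M, 0 < dd m ∧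
      (∀ z, (m : D) ^ dd m * z = z * (m : D) ^ dd m) ∧ ((m : D) ≠ 1 → 1 - (m : D) ^ dd m ≠ 0))
    (hfg : ∀ m ∈ [a, a⁻¹, c, c⁻¹, c⁻¹ * b, a⁻¹ * c, a⁻¹ * b],
      (pmod R ((m : D) ^ dd m)).FG ∧ (pmod R (1 - (m : D) ^ dd m)⁻¹).FG) : False := by
  obtain ⟨T, hT⟩ : ∃ T, T = rmod R R le_rfl := ⟨_, rfl⟩
  have mT : ∀ x, x ∈ T ↔ x ∈ R := fun x => hT ▸ Iff.rfl
  have xR : x ∈ R := hx ▸ R.mul_mem (R.mul_mem (R.mul_mem t1 p1) q1) x1
  have hx0 : x ≠ 0 := by rintro rfl; exact x2 (Commute.zero_right _)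
  have hx1 : x + 1 ≠ 0 := fun h => x2 (eq_neg_of_add_eq_zero_left h ▸ Commute.neg_one_right _)
  have hRT : ∀ g ∈ R, g • T ≤ T := fun g hg =>
    rsmul_le.2 fun z hz => (mT _).2 (R.mul_mem hg ((mT z).1 hz))
  obtain ⟨s, δ, hs, s1, d1, d2, d3, d4⟩ := exists_len (G := Dˣ)
    (fun g _ _ h => smul_mono_right (g : D) h) T ((x * (x + 1)) • T)
    (lt_of_le_of_ne (hRT _ (R.mul_mem xR (R.add_mem xR R.one_mem))) fun e => t3 (by
      obtain ⟨z, hz, e'⟩ := e.ge ((mT 1).2 R.one_mem)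
      have e2 : t * (a * q * q * x0 * (x + 1) * z) = 1 := by
        change x * (x + 1) * z = 1 at e'
        nth_rewrite 1 [hx] at e'
        simpa only [mul_assoc] using e'
      rw [← eq_inv_of_mul_eq_one_right e2]
      exact R.mul_mem (R.mul_mem (R.mul_mem (R.mul_mem p1 q1) x1) (R.add_mem xR R.one_mem))
        ((mT z).1 hz))) (hT ▸ hK)
  have sm : ∀ (g : D) {A B}, s A B → s (g • A) (g • B) := fun g A B h => by
    by_cases hg : g = 0
    · exact hs.of_le (rsmul_le.2 fun z _ => by simp [hg])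
    · exact hs.smul (Units.mk0 g hg) h
  let O : Subring D :=
    { carrier := {g | s (g • T) T}
      mul_mem' := fun {g h} hg hh => hs.trans (by rw [mul_smul]; exact sm g hh) hg
      one_mem' := hs.of_le (one_smul _ T).le
      add_mem' := fun {g h} hg hh => hs.trans (hs.of_le (rsmul_le.2 fun z hz => by
        rw [add_mul]
        exact Submodule.add_mem_sup ⟨z, hz, rfl⟩ ⟨z, hz, rfl⟩)) (hs.sup hg hh)
      zero_mem' := hs.of_le (hRT 0 R.zero_mem)
      neg_mem' := fun {g} hg => hs.trans (hs.of_le (rsmul_le.2 fun z hz => by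
        rw [neg_mul]
        exact neg_mem ⟨z, hz, rfl⟩)) hg }
  have hRO : R ≤ O := fun g hg => hs.of_le (hRT g hg)
  have back : ∀ g : D, g ≠ 0 → g⁻¹ ∈ O → s T (g • T) := fun g h0 h => by
    simpa [smul_smul, h0] using sm g h
  have fg2 : ∀ A : Submodule R.op D, A.FG → A ≤ rmod R O hRO → s A T := fun A hA => by
    induction A, hA using Submodule.fg_induction with
    | singleton z =>
      exact fun h => hs.trans (hs.of_le (Submodule.span_le.2 (by
        rintro _ rfl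
        exact ⟨1, (mT 1).2 R.one_mem, mul_one _⟩))) (h (Submodule.mem_span_singleton_self z))
    | sup A B _ _ h1 h2 => exact fun h => hs.sup (h1 (le_sup_left.trans h)) (h2 (le_sup_right.trans h))
  have kinv : ∀ c ∈ O, (pmod R c⁻¹).FG → c⁻¹ ∈ O := fun c hc hz => by
    by_cases c0 : c = 0
    · simp [c0]
    obtain ⟨n, hn⟩ := hz.stabilizes_of_iSup_eq
      ⟨fun j => Submodule.span R.op ((c⁻¹ ^ ·) '' Set.Iic j), fun i j h =>
        Submodule.span_mono (Set.image_mono (Set.Iic_subset_Iic.2 h))⟩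
      (le_antisymm (iSup_le fun j => Submodule.span_mono (Set.image_subset_range _ _))
        (Submodule.span_le.2 (by
          rintro _ ⟨i, rfl⟩
          exact Submodule.mem_iSup_of_mem i (Submodule.subset_span ⟨i, Set.self_mem_Iic, rfl⟩))))
    have h1 : pmod R c⁻¹ ≤ (rmod R O hRO).comap (DistribSMul.toLinearMap R.op D (c ^ n)) :=
      hn.le.trans (Submodule.span_le.2 (by
        rintro _ ⟨i, hi, rfl⟩
        obtain ⟨j, rfl⟩ := Nat.exists_eq_add_of_le' hi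
        change c ^ (j + i) * c⁻¹ ^ i ∈ O
        rw [pow_add, inv_pow, mul_inv_cancel_right₀ (pow_ne_zero i c0)]
        exact O.pow_mem hc j))
    have h2 : c ^ n * c⁻¹ ^ (n + 1) ∈ O := h1 (Submodule.subset_span ⟨n + 1, rfl⟩)
    rwa [pow_succ, inv_pow, mul_inv_cancel_left₀ (pow_ne_zero n c0)] at h2
  have small : ∀ m ∈ O, ∀ d : ℕ, 0 < d → (pmod R (m ^ d)).FG → s (pmod R m) T := by
    intro m hm d hd hc
    have h1 : s (pmod R (m ^ d)) T := fg2 _ hc (Submodule.span_le.2 (by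
      rintro _ ⟨i, rfl⟩
      exact O.pow_mem (O.pow_mem hm d) i))
    refine hs.trans (hs.of_le (B := (Finset.range d).sup fun i => m ^ i • pmod R (m ^ d))
      (Submodule.span_le.2 ?_)) (Finset.sup_induction (p := fun A => s A T) (hs.of_le bot_le)
        (fun _ h _ h' => hs.sup h h') fun i _ => hs.trans (sm _ h1) (O.pow_mem hm i))
    rintro _ ⟨i, rfl⟩
    exact Finset.le_sup (f := fun i => m ^ i • pmod R (m ^ d))
      (Finset.mem_range.2 (Nat.mod_lt i hd)) ⟨_, Submodule.subset_span ⟨i / d, rfl⟩, by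
        change m ^ _ * (m ^ d) ^ _ = m ^ i
        rw [← pow_mul, ← pow_add, Nat.mod_add_div]⟩
  let U : Subgroup Dˣ :=
    { carrier := {g | (g : D) ∈ O ∧ (g : D)⁻¹ ∈ O}
      mul_mem' := fun {g h} hg hh => ⟨O.mul_mem hg.1 hh.1, by
        rw [Units.val_mul, mul_inv_rev]; exact O.mul_mem hh.2 hg.2⟩
      one_mem' := ⟨O.one_mem, by simp⟩
      inv_mem' := fun {g} hg => ⟨by simpa using hg.2, by simpa using hg.1⟩ }
  have xmul : ∀ g ∈ U, ∀ h ∈ U, δ (((g * h : Dˣ) : D) • T) T =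
      δ ((g : D) • T) T + δ ((h : D) • T) T := fun g hg h hh => by
    rw [Units.val_mul, mul_smul, d2 _ ((g : D) • T) T (sm g hh.1) (sm g (back h h.ne_zero hh.2))
      hg.1 (back g g.ne_zero hg.2), add_comm]
    exact congrArg _ (d3 g _ _)
  have x1' : δ T T = 0 := by simpa using xmul 1 U.one_mem 1 U.one_mem
  have xneg : ∀ m ∈ O, ∀ d : ℕ, 0 < d → (pmod R (m ^ d)).FG → ∀ g ∈ U,
      (g : D) ∈ lstab (pmod R m) → δ ((g : D) • T) T ≤ 0 := fun m hm d hd hc g hg h => by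
    have h1 := small m hm d hd hc
    have h2 : s T (pmod R m) := hs.of_le fun z hz => by
      have : (m ^ 0 * z) ∈ pmod R m := (pmod R m).smul_mem ⟨MulOpposite.op z, (mT z).1 hz⟩
        (Submodule.subset_span ⟨0, rfl⟩)
      simpa using this
    have h3 := back g g.ne_zero hg.2
    have h4 := d2 T _ T h2 h1 h1 h2
    have h5 := d4 _ _ (rsmul_le.2 h)
    have h6 := hs.trans (sm g h1) hg.1
    have h7 := hs.trans h3 (sm g h2)
    rw [d2 _ _ T (sm g h2) (sm g h1) h6 h7, d2 ((g : D) • pmod R m) _ T (hs.trans h6 h2)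
      (hs.trans h1 h7) h1 h2, show δ ((g : D) • T) ((g : D) • pmod R m) = _ from d3 g _ _]
    omega
  let Z : Subgroup Dˣ :=
    { carrier := {g | g ∈ U ∧ δ ((g : D) • T) T = 0}
      mul_mem' := fun {g h} hg hh => ⟨U.mul_mem hg.1 hh.1, by
        rw [xmul g hg.1 h hh.1, hg.2, hh.2, add_zero]⟩
      one_mem' := ⟨U.one_mem, by simpa using x1'⟩
      inv_mem' := fun {g} hg => ⟨U.inv_mem hg.1, by
        have := xmul g hg.1 _ (U.inv_mem hg.1)
        rw [mul_inv_cancel, hg.2, Units.val_one, one_smul, x1'] at this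
        omega⟩ }
  have zero : ∀ g ∈ U, δ ((g : D) • T) T ≤ 0 → δ (((g⁻¹ : Dˣ) : D) • T) T ≤ 0 → g ∈ Z :=
    fun g hg h1 h2 => ⟨hg, by
      have := xmul g hg _ (U.inv_mem hg)
      rw [mul_inv_cancel, Units.val_one, one_smul, x1'] at this
      omega⟩
  have z1 : ∀ m ∈ M, m ∈ U → (pmod R ((m : D) ^ dd m)).FG →
      (pmod R (((m⁻¹ : Dˣ) : D) ^ dd m⁻¹)).FG → m ∈ Z := fun m hm hU f1 f2 =>
    zero m hU (xneg m hU.1 _ (hdd m hm).1 f1 m hU (pmod_stab R m))
      (xneg _ (U.inv_mem hU).1 _ (hdd _ (M.inv_mem hm)).1 f2 _ (U.inv_mem hU) (pmod_stab R _))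
  have z2 : ∀ b ∈ M, b ∈ U → ∀ c ∈ M, c ∈ Z → ∀ m, m = c⁻¹ * b → (pmod R ((m : D) ^ dd m)).FG ∧
      (pmod R (1 - (m : D) ^ dd m)⁻¹).FG → ∀ z : Dˣ, (z : D) = c - b → z ∈ Z := by
    intro b hb bU c hc cZ m hm ⟨h1, h3⟩ z hz
    have mM : m ∈ M := hm ▸ M.mul_mem (M.inv_mem hc) hb
    have mU : m ∈ U := hm ▸ U.mul_mem (U.inv_mem cZ.1) bU
    have e : ((c⁻¹ * z : Dˣ) : D) = 1 - m := by simp [hz, hm, mul_sub]
    suffices c⁻¹ * z ∈ Z by simpa using Z.mul_mem cZ this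
    generalize c⁻¹ * z = u at e
    obtain ⟨hn, -, h2⟩ := hdd m mM
    replace h2 := h2 fun h => u.ne_zero (by rw [e, h, sub_self])
    generalize dd m = n at *
    have h4 := O.sub_mem O.one_mem (O.pow_mem mU.1 n)
    have h5 := kinv _ h4 h3
    have h6 : ((Units.mk0 _ h2 * u⁻¹ : Dˣ) : D) = ∑ i ∈ Finset.range n, (m : D) ^ i := by
      rw [Units.val_mul, Units.val_mk0, ← geom_sum_mul_neg, ← e, Units.mul_inv_cancel_right]
    have uO : (u : D) ∈ O := e ▸ O.sub_mem O.one_mem mU.1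
    have sO : ((Units.mk0 _ h2 * u⁻¹ : Dˣ) : D) ∈ O := h6 ▸ O.sum_mem fun i _ => O.pow_mem mU.1 i
    have tU : (Units.mk0 _ h2)⁻¹ ∈ U := U.inv_mem ⟨h4, h5⟩
    have sU : Units.mk0 _ h2 * u⁻¹ ∈ U := ⟨sO, by simpa using O.mul_mem uO h5⟩
    have uU : u ∈ U := by simpa using U.inv_mem (U.mul_mem tU sU)
    refine zero u uU (xneg m mU.1 n hn h1 u uU (e ▸ sub_mem (one_mem _) (pmod_stab R m))) ?_
    have h7 := xmul _ tU _ sU
    rw [inv_mul_cancel_left] at h7
    have h8 := xneg _ h5 1 one_pos (by rwa [pow_one]) _ tU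
      (by simpa using pmod_stab R _)
    have h9 := xneg m mU.1 n hn h1 _ sU (h6 ▸ sum_mem fun i _ => pow_mem (pmod_stab R m) i)
    omega
  have fac : ∀ u v w : D, u ∈ R → w ∈ R → (u * v * w)⁻¹ ∈ O → v ≠ 0 → u ≠ 0 → w ≠ 0 → v⁻¹ ∈ O :=
    fun u v w hu hw h _ u0 w0 => by
      simpa [mul_assoc, u0, w0] using O.mul_mem (O.mul_mem (hRO hw) h) (hRO hu)
  have yO : (x * (x + 1))⁻¹ ∈ O := by
    have := sm (x * (x + 1))⁻¹ s1
    rwa [smul_smul, inv_mul_cancel₀ (mul_ne_zero hx0 hx1), one_smul] at this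
  have xO : x⁻¹ ∈ O := fac 1 x (x + 1) R.one_mem (R.add_mem xR R.one_mem) (by rwa [one_mul]) hx0
    one_ne_zero hx1
  have xU : Units.mk0 x hx0 ∈ U := ⟨hRO xR, xO⟩
  have yU : Units.mk0 _ hx1 ∈ U := ⟨hRO (R.add_mem xR R.one_mem),
    fac x _ 1 xR R.one_mem (by rwa [mul_one]) hx1 hx0 one_ne_zero⟩
  have x00 : x0 ≠ 0 := by rintro rfl; exact hx0 (by simp [hx])
  have p0 : (a : D) * q ≠ 0 := mul_ne_zero a.ne_zero q2
  have aU : a ∈ U := ⟨by
    simpa [q2] using O.mul_mem (hRO p1) (fac (t * (a * q)) q x0 (R.mul_mem t1 p1) x1 (hx ▸ xO) q2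
      (mul_ne_zero t2 p0) x00), by
    simpa [q2] using O.mul_mem (hRO q1) (fac t (a * q) (q * x0) t1 (R.mul_mem q1 x1)
      (by rw [← mul_assoc]; exact hx ▸ xO) p0 t2 (mul_ne_zero q2 x00))⟩
  have bU : b ∈ U := (show Units.mk0 x hx0 * a * (Units.mk0 x hx0)⁻¹ = b from
    mul_inv_eq_iff_eq_mul.2 (Units.ext e1.symm)) ▸ U.mul_mem (U.mul_mem xU aU) (U.inv_mem xU)
  have cU : c ∈ U := (show Units.mk0 _ hx1 * a * (Units.mk0 _ hx1)⁻¹ = c from
    mul_inv_eq_iff_eq_mul.2 (Units.ext e2.symm)) ▸ U.mul_mem (U.mul_mem yU aU) (U.inv_mem yU)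
  have aZ := z1 a ha aU (hfg _ (by simp)).1 (hfg _ (by simp)).1
  have cZ := z1 c hc cU (hfg _ (by simp)).1 (hfg _ (by simp)).1
  have e3 : ((c : D) - b) * x = a - c := by
    rw [mul_add, add_mul, mul_one, one_mul, ← e1] at e2
    rw [sub_mul, sub_eq_sub_iff_add_eq_add, e2, add_comm]
  have e4 : ((c : D) - b) * (x + 1) = a - b := by rw [mul_add, e3, mul_one, sub_add_sub_cancel]
  have h0 : (c : D) - b ≠ 0 := fun h => x2 (by
    rw [h, zero_mul, eq_comm, sub_eq_zero] at e4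
    rw [← e4] at e1
    exact e1)
  have h1 := z2 b hb bU c hc cZ _ rfl (hfg _ (by simp)) (Units.mk0 _ h0) rfl
  have h2 := Z.mul_mem (Z.inv_mem h1) (z2 c hc cU a ha aZ _ rfl (hfg _ (by simp))
    (Units.mk0 _ h0 * Units.mk0 x hx0) e3)
  have h3 := Z.mul_mem (Z.inv_mem h1) (z2 b hb bU a ha aZ _ rfl (hfg _ (by simp))
    (Units.mk0 _ h0 * Units.mk0 _ hx1) e4)
  rw [inv_mul_cancel_left] at h2 h3
  exact d1.ne (Z.mul_mem h2 h3).2

lemma cen_bound (R : Subring D)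
    (hint : ∀ s ∈ Subring.center D, ∃ w, w ≠ 0 ∧ ∀ i : ℕ, s ^ i * w ∈ R) (C : Set D)
    (hC : C.Finite) (hc : C ⊆ Subring.center D) :
    ∃ w, w ≠ 0 ∧ ∀ g ∈ Subring.closure ((R : Set D) ∪ C), w * g ∈ R := by
  have hm : ∀ u ∈ Submonoid.closure C, ∀ z, z * u = u * z := fun u hu =>
    Subring.mem_center_iff.1 (Submonoid.closure_le (S := (Subring.center D).toSubmonoid).2 hc hu)
  obtain ⟨w, w0, hw⟩ : ∃ w, w ≠ 0 ∧ ∀ u ∈ Submonoid.closure C, w * u ∈ R := by
    clear hm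
    induction C, hC using Set.Finite.induction_on with
    | empty => exact ⟨1, one_ne_zero, by simp⟩
    | @insert s C _ _ ih =>
      obtain ⟨w, w0, hw⟩ := ih ((Set.subset_insert _ _).trans hc)
      have hs := hc (Set.mem_insert s C)
      obtain ⟨v, v0, hv⟩ := hint s hs
      have key : ∀ u ∈ Submonoid.closure (insert s C), ∃ i : ℕ, ∃ u' ∈ Submonoid.closure C,
          u = s ^ i * u' := fun u hu => by
        induction hu using Submonoid.closure_induction with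
        | mem u hu =>
          rcases hu with rfl | hu
          exacts [⟨1, 1, one_mem _, by simp⟩, ⟨0, u, Submonoid.subset_closure hu, by simp⟩]
        | one => exact ⟨0, 1, one_mem _, by simp⟩
        | mul u u' _ _ h h' =>
          obtain ⟨i, p, hp, rfl⟩ := h
          obtain ⟨j, p', hp', rfl⟩ := h'
          exact ⟨i + j, p * p', mul_mem hp hp', by
            rw [pow_add, mul_assoc, mul_assoc, ← mul_assoc p,
              Subring.mem_center_iff.1 (pow_mem hs j) p, mul_assoc]⟩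
      refine ⟨v * w, mul_ne_zero v0 w0, fun u hu => ?_⟩
      obtain ⟨i, p, hp, rfl⟩ := key u hu
      rw [← mul_assoc, Subring.mem_center_iff.1 (pow_mem hs i), ← mul_assoc, mul_assoc _ w]
      exact R.mul_mem (hv i) (hw p hp)
  let O : Subring D :=
    { carrier := {g | ∀ b, (∀ u ∈ Submonoid.closure C, b * u ∈ R) →
        ∀ u ∈ Submonoid.closure C, b * g * u ∈ R}
      mul_mem' := fun hg hh b hb => by rw [← mul_assoc]; exact hh _ (hg b hb)
      one_mem' := fun b hb => by rwa [mul_one]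
      add_mem' := fun hg hh b hb u hu => by
        rw [mul_add, add_mul]; exact R.add_mem (hg b hb u hu) (hh b hb u hu)
      zero_mem' := fun b _ u _ => by simp
      neg_mem' := fun hg b hb u hu => by rw [mul_neg, neg_mul]; exact R.neg_mem (hg b hb u hu) }
  refine ⟨w, w0, fun g hg => ?_⟩
  have : g ∈ O := Subring.closure_le.2 (Set.union_subset (fun r hr b hb u hu => by
    rw [mul_assoc, hm u hu, ← mul_assoc]; exact R.mul_mem (hb u hu) hr) fun r hr b hb u hu => by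
    rw [mul_assoc]; exact hb _ (mul_mem (Submonoid.subset_closure hr) hu)) hg
  simpa using this w hw 1 (one_mem _)

lemma kdim_up (R R' : Subring D) (h : R ≤ R') (w : D) (w0 : w ≠ 0) (hw : ∀ g ∈ R', w * g ∈ R)
    (hK : IsEmpty (ℚ ↪o Submodule Rᵐᵒᵖ R)) (f : ℚ → Submodule R'.op D) (hf : StrictMono f) :
    ¬ ∀ q, f q ≤ rmod R' R' le_rfl := fun hq => by
  let g : ℚ → Submodule Rᵐᵒᵖ R := fun q =>
    { carrier := {x | w⁻¹ * x ∈ f q}
      add_mem' := fun {x y} hx hy => by simpa [mul_add] using (f q).add_mem hx hy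
      zero_mem' := by simp
      smul_mem' := fun c x hx => by
        have : w⁻¹ * x * (c.unop : R) ∈ f q :=
          (f q).smul_mem ⟨MulOpposite.op (c.unop : R), h c.unop.2⟩ hx
        simpa [mul_assoc] using this }
  refine hK.false (OrderEmbedding.ofStrictMono g fun p q e => ?_)
  obtain ⟨z, z1, z2⟩ := SetLike.exists_of_lt (hf e)
  exact SetLike.lt_iff_le_and_exists.2 ⟨fun x hx => (hf e).le hx, ⟨_, hw z (hq q z1)⟩,
    by simpa [g, w0] using z1, by simpa [g, w0] using z2⟩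

lemma pmod_fg (R : Subring D) (s : D) (hs : s ∈ Subring.center D)
    (h : s ∈ Subring.closure ((R : Set D) ∪ {s⁻¹})) : (pmod R s).FG := by
  have hN : ∀ c : D, ⨆ j : ℕ, Submodule.span R.op ((c ^ ·) '' Set.Iic j) = pmod R c := fun c =>
    le_antisymm (iSup_le fun j => Submodule.span_mono (Set.image_subset_range _ _))
      (Submodule.span_le.2 (by
        rintro _ ⟨i, rfl⟩
        exact Submodule.mem_iSup_of_mem i (Submodule.subset_span ⟨i, Set.self_mem_Iic, rfl⟩)))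
  have h1 : s ∈ lstab (pmod R s⁻¹) := Subring.closure_le.2 (Set.union_subset (fun r hr x hx => by
    induction hx using Submodule.span_induction with
    | mem x hx =>
      obtain ⟨i, rfl⟩ := hx
      rw [Subring.mem_center_iff.1 (pow_mem (show s⁻¹ ∈ Subring.center D from
        Subring.mem_center_iff.2 fun z =>
          (Commute.inv_right₀ (Subring.mem_center_iff.1 hs z)).eq) i) r]
      exact Submodule.smul_mem _ (⟨MulOpposite.op r, hr⟩ : R.op) (Submodule.subset_span ⟨i, rfl⟩)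
    | zero => simp
    | add x y _ _ hx hy => rw [mul_add]; exact add_mem hx hy
    | smul c x _ hx => exact (mul_assoc r x c.1.unop) ▸ Submodule.smul_mem _ c hx)
    (Set.singleton_subset_iff.2 (pmod_stab R _))) h
  have h2 := h1 _ (Submodule.subset_span ⟨0, rfl⟩)
  rw [← hN] at h2
  obtain ⟨n, hn⟩ := (Submodule.mem_iSup_of_chain ⟨fun j => Submodule.span R.op
    ((s⁻¹ ^ ·) '' Set.Iic j), fun i j h =>
      Submodule.span_mono (Set.image_mono (Set.Iic_subset_Iic.2 h))⟩ _).1 h2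
  by_cases s0 : s = 0
  · exact Submodule.fg_span ((Set.toFinite {0, 1}).subset (by
      rintro _ ⟨i, rfl⟩
      cases i <;> simp [s0]))
  obtain ⟨A, hA⟩ : ∃ A, A = Submodule.span R.op ((s ^ ·) '' Set.Iic n) := ⟨_, rfl⟩
  have h3 : s ^ (n + 1) ∈ A := by
    have := Submodule.span_le (p := A.comap (DistribSMul.toLinearMap R.op D (s ^ n))).2 (by
      rintro _ ⟨i, hi, rfl⟩
      obtain ⟨j, rfl⟩ := Nat.exists_eq_add_of_le' hi
      change s ^ (j + i) * s⁻¹ ^ i ∈ A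
      rw [pow_add, inv_pow, mul_inv_cancel_right₀ (pow_ne_zero i s0), hA]
      exact Submodule.subset_span ⟨j, by simp, rfl⟩) hn
    change s ^ n * (s * s⁻¹ ^ 0) ∈ A at this
    simpa [pow_succ] using this
  have h4 : s • A ≤ A := by
    nth_rewrite 1 [hA]
    refine Submodule.map_span_le _ _ _ |>.2 ?_
    rintro _ ⟨i, hi, rfl⟩
    change s * s ^ i ∈ A
    rw [← pow_succ']
    rcases (show i ≤ n from hi).eq_or_lt with rfl | e
    · exact h3
    · exact hA ▸ Submodule.subset_span ⟨i + 1, e, rfl⟩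
  have h5 : pmod R s = A := le_antisymm (Submodule.span_le.2 (by
    rintro _ ⟨i, rfl⟩
    induction i with
    | zero => exact hA ▸ Submodule.subset_span ⟨0, by simp, rfl⟩
    | succ i ih => simpa [pow_succ'] using rsmul_le.1 h4 _ ih))
    (hA ▸ Submodule.span_mono (Set.image_subset_range _ _))
  rw [h5, hA]
  exact Submodule.fg_span ((Set.finite_Iic n).image _)

theorem core_kdim (M : Subgroup Dˣ) [hM : M.Normal] {k : ℕ}
    (H : Hyp k (fun x : D => ∃ g ∈ M, (g : D) = x)) (R : Subring D)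
    (hK : IsEmpty (ℚ ↪o Submodule Rᵐᵒᵖ R))
    (hQ : ∀ x : D, ∃ s ∈ R, s ≠ 0 ∧ x * s ∈ R) (hR : R ≠ ⊤)
    (hint : ∀ s ∈ Subring.center D, ∃ w, w ≠ 0 ∧ ∀ i : ℕ, s ^ i * w ∈ R)
    (S : Finset D) (hS : ∀ R' : Subring D, (∀ s ∈ S, s ∈ R') → ∀ z ∈ R', z ∈ Subring.center D →
      z⁻¹ ∈ R') (a : Dˣ) (ha : a ∈ M) (y : D) : (a : D) * y = y * a := by
  by_contra hy
  have hdd : ∀ m : Dˣ, ∃ n : ℕ, m ∈ M → 0 < n ∧ (∀ z, (m : D) ^ n * z = z * (m : D) ^ n) ∧
      ((m : D) ≠ 1 → 1 - (m : D) ^ n ≠ 0) := fun m => by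
    by_cases mM : m ∈ M
    · obtain ⟨n, hn, hc⟩ := H.hrad m ⟨m, mM, rfl⟩
      by_cases h : (m : D) ^ n = 1
      · exact ⟨1, fun _ => ⟨one_pos, by simpa using torsion_central H _ ⟨m, mM, rfl⟩ n hn h,
          fun e => by rw [pow_one]; exact sub_ne_zero.2 e.symm⟩⟩
      · exact ⟨n, fun _ => ⟨hn, hc, fun _ => sub_ne_zero.2 (Ne.symm h)⟩⟩
    · exact ⟨0, fun h => absurd h mM⟩
  choose dd hdd using hdd
  have ci : ∀ s ∈ Subring.center D, s⁻¹ ∈ Subring.center D := fun s hs =>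
    Subring.mem_center_iff.2 fun z => (Commute.inv_right₀ (Subring.mem_center_iff.1 hs z)).eq
  have cen : ∀ m ∈ M, (m : D) ^ dd m ∈ Subring.center D ∧
      (1 - (m : D) ^ dd m)⁻¹ ∈ Subring.center D := fun m hm =>
    have h := Subring.mem_center_iff.2 fun z => ((hdd m hm).2.1 z).symm
    ⟨h, ci _ (sub_mem (one_mem _) h)⟩
  have mem : ∀ b ∈ M, ∀ c ∈ M, ∀ m ∈ [a, a⁻¹, c, c⁻¹, c⁻¹ * b, a⁻¹ * c, a⁻¹ * b], m ∈ M := by
    intro b hb c hc
    simp [ha, hb, hc, M.mul_mem]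
  have sub : ∀ C : Set D, R ≤ Subring.closure ((R : Set D) ∪ C) := fun C x hx =>
    Subring.subset_closure (Or.inl hx)
  have nu : ∀ R₁ R₂ : Subring D, R ≤ R₁ → R₁ ≤ R₂ → R₂ ≠ ⊤ → ∃ t ∈ R, t ≠ 0 ∧ t⁻¹ ∉ R₂ := by
    intro R₁ R₂ h1 h2 h3
    obtain ⟨x, hx⟩ := not_forall.1 fun h => h3 ((Subring.eq_top_iff' R₂).2 h)
    obtain ⟨t, t1, t2, t3⟩ := hQ x
    exact ⟨t, t1, t2, fun h => hx (by simpa [t2] using R₂.mul_mem (h2 (h1 t3)) h)⟩
  by_cases hF : Subring.closure ((R : Set D) ∪ Subring.center D) = ⊤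
  · obtain ⟨C, hC, hc, hSC⟩ : ∃ C : Set D, C.Finite ∧ C ⊆ Subring.center D ∧
        ∀ s ∈ S, s ∈ Subring.closure ((R : Set D) ∪ C) := by
      have key : ∀ s : D, ∃ C : Set D, C.Finite ∧ C ⊆ Subring.center D ∧
          s ∈ Subring.closure ((R : Set D) ∪ C) := fun s => by
        have hs := hF.ge (Subring.mem_top s)
        have l : ∀ {C C' : Set D}, C ⊆ C' → Subring.closure ((R : Set D) ∪ C) ≤
          Subring.closure ((R : Set D) ∪ C') := fun h =>
          Subring.closure_mono (Set.union_subset_union_right _ h)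
        induction hs using Subring.closure_induction with
        | mem z hz =>
          exact hz.elim (fun h => ⟨∅, by simp, by simp, sub _ h⟩) fun h =>
            ⟨{z}, by simp, by simpa using h, Subring.subset_closure (Or.inr rfl)⟩
        | zero => exact ⟨∅, by simp, by simp, zero_mem _⟩
        | one => exact ⟨∅, by simp, by simp, one_mem _⟩
        | neg z _ h => exact h.imp fun C h => ⟨h.1, h.2.1, neg_mem h.2.2⟩
        | add u v _ _ h h' =>
          obtain ⟨C, a1, a2, a3⟩ := h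
          obtain ⟨C', b1, b2, b3⟩ := h'
          exact ⟨_, a1.union b1, Set.union_subset a2 b2,
            add_mem (l Set.subset_union_left a3) (l Set.subset_union_right b3)⟩
        | mul u v _ _ h h' =>
          obtain ⟨C, a1, a2, a3⟩ := h
          obtain ⟨C', b1, b2, b3⟩ := h'
          exact ⟨_, a1.union b1, Set.union_subset a2 b2,
            mul_mem (l Set.subset_union_left a3) (l Set.subset_union_right b3)⟩
      choose C h1 h2 h3 using key
      exact ⟨⋃ s ∈ S, C s, S.finite_toSet.biUnion fun s _ => h1 s, Set.iUnion₂_subset fun s _ => h2 s,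
        fun s hs => Subring.closure_mono (Set.union_subset_union_right _
          (Set.subset_biUnion_of_mem (u := C) hs)) (h3 s)⟩
    obtain ⟨w, w0, hw⟩ := cen_bound R hint C hC hc
    obtain ⟨t, t1, t2, t3⟩ := nu R _ le_rfl (sub C) fun h => hR ((Subring.eq_top_iff' R).2
      fun x => by simpa [w0] using hw (w⁻¹ * x) (h.ge (Subring.mem_top _)))
    obtain ⟨q, q1, x0, x1, x, b, hb, c, hc, q2, p1, hx, x2, e1, e2⟩ := pick_x M R hQ a ha y hy t t2
    have fg : ∀ s ∈ Subring.center D, (pmod (Subring.closure ((R : Set D) ∪ C)) s).FG :=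
      fun s hs => pmod_fg _ s hs (by
        have := hS (Subring.closure ((Subring.closure ((R : Set D) ∪ C) : Set D) ∪ {s⁻¹}))
          (fun z hz => Subring.subset_closure (Or.inl (hSC z hz))) s⁻¹
          (Subring.subset_closure (Or.inr rfl)) (ci s hs)
        rwa [inv_inv] at this)
    exact core_len M _ (kdim_up R _ (sub C) w w0 hw hK) a ha t q x0 x b c hb hc (sub C t1) t2 t3
      (sub C q1) (sub C x1) q2 (sub C p1) hx x2 e1 e2 dd hdd fun m hm =>
        ⟨fg _ (cen m (mem b hb c hc m hm)).1, fg _ (cen m (mem b hb c hc m hm)).2⟩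
  · obtain ⟨t, t1, t2, t3⟩ := nu R _ le_rfl (sub _) hF
    obtain ⟨q, q1, x0, x1, x, b, hb, c, hc, q2, p1, hx, x2, e1, e2⟩ := pick_x M R hQ a ha y hy t t2
    obtain ⟨C, hC⟩ : ∃ C : Set D, C = ⋃ m ∈ {m | m ∈ [a, a⁻¹, c, c⁻¹, c⁻¹ * b, a⁻¹ * c, a⁻¹ * b]},
      {(m : D) ^ dd m, (1 - (m : D) ^ dd m)⁻¹} := ⟨_, rfl⟩
    have h1 : C ⊆ Subring.center D := hC ▸ Set.iUnion₂_subset fun m hm =>
      Set.pair_subset (cen m (mem b hb c hc m hm)).1 (cen m (mem b hb c hc m hm)).2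
    obtain ⟨w, w0, hw⟩ := cen_bound R hint C
      (hC ▸ (List.finite_toSet _).biUnion fun _ _ => Set.toFinite _) h1
    have fg : ∀ s ∈ C, (pmod (Subring.closure ((R : Set D) ∪ C)) s).FG := fun s hs =>
      pmod_fg _ s (h1 hs) (Subring.subset_closure (Or.inl (Subring.subset_closure (Or.inr hs))))
    exact core_len M _ (kdim_up R _ (sub C) w w0 hw hK) a ha t q x0 x b c hb hc (sub C t1) t2
      (fun h => t3 (Subring.closure_mono (Set.union_subset_union_right _ h1) h))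
      (sub C q1) (sub C x1) q2 (sub C p1) hx x2 e1 e2 dd hdd fun m hm =>
        ⟨fg _ (hC ▸ Set.mem_biUnion hm (Or.inl rfl)), fg _ (hC ▸ Set.mem_biUnion hm (Or.inr rfl))⟩

theorem main_kdim (N : Subgroup Dˣ)
    (hN : ∃ (k : ℕ) (H : ℕ → Subgroup Dˣ), H 0 = N ∧ H k = ⊤ ∧
      ∀ i, i < k → H i ≤ H (i + 1) ∧ ((H i).subgroupOf (H (i + 1))).Normal)
    (hrad : ∀ x ∈ N, ∃ n : ℕ, 0 < n ∧ ((x : Dˣ) : D) ^ n ∈ Subring.center D)
    (E : Subfield D) (R : Subring E) (hn : IsEmpty (ℚ ↪o Submodule Rᵐᵒᵖ R)) (hR : R ≠ ⊤)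
    (hQ : ∀ x : E, ∃ s ∈ R, s ≠ 0 ∧ x * s ∈ R)
    (a : Dˣ) (ha : a ∈ N) (haE : (a : D) ∈ E) (y : D) (hy : y ∈ E) : a * y = y * a := by
  obtain ⟨k, H, h0, hk, hH⟩ := hN
  let f : Eˣ →* Dˣ := Units.map E.subtype.toMonoidHom
  obtain ⟨M, hM, h1, -, h3⟩ := Sv.exists_hull (N.comap f)
    ⟨k, fun i => (H i).comap f, by simp only [h0], by simp [hk], fun i hi =>
      ⟨Subgroup.comap_mono (hH i hi).1, ⟨fun b hb g => by
        have := (hH i hi).2.conj_mem ⟨f b, b.2⟩ hb ⟨f g, g.2⟩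
        simpa [Subgroup.mem_subgroupOf] using this⟩⟩⟩ (fun b hb => by
      obtain ⟨m, hm, e⟩ := hrad _ hb
      exact ⟨m, hm, (Sv.mem_center_units _).2 (Subring.mem_center_iff.2 fun z =>
        Subtype.ext (by simpa [f] using Subring.mem_center_iff.1 e z))⟩)
  let a' : Eˣ := Units.mk0 ⟨a, haE⟩ fun h => a.ne_zero (congrArg Subtype.val h)
  have ha' : a' ∈ M := h1 (show f a' ∈ N from by rwa [show f a' = a from Units.ext rfl])
  have hN' : ∃ (k : ℕ) (H : ℕ → Subgroup Eˣ), H 0 = M ∧ H k = ⊤ ∧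
      ∀ i, i < k → H i ≤ H (i + 1) ∧ ((H i).subgroupOf (H (i + 1))).Normal :=
    ⟨1, fun i => if i = 0 then M else ⊤, rfl, rfl, fun i hi => by
      obtain rfl : i = 0 := by omega
      exact ⟨le_top, hM.subgroupOf _⟩⟩
  have hrad' : ∀ x ∈ M, ∃ n : ℕ, 0 < n ∧ ((x : Eˣ) : E) ^ n ∈ Subring.center E := fun x hx =>
    (h3 x hx).imp fun n h => ⟨h.1, by simpa using (Sv.mem_center_units _).1 h.2⟩
  obtain ⟨k', H'⟩ := hyp_of M hN' hrad'
  refine congrArg Subtype.val (?_ : (a' : E) * ⟨y, hy⟩ = ⟨y, hy⟩ * a')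
  by_contra hc
  obtain ⟨S, hS⟩ := not_forall.1 fun h => hc (main_cen M hN' hrad' ⊤ h a' ha' trivial _ trivial)
  refine hc (core_kdim M H' R hn hQ hR (fun s hs => ?_) S (fun R' h4 z hz h5 => ?_) a' ha' _)
  swap
  · by_contra h6
    exact hS fun _ => ⟨R', Or.inr ⟨z, hz, by rintro rfl; simp at h6, h6,
      fun r _ => (Subring.mem_center_iff.1 h5 r).symm, fun s hs => ⟨0, by simpa using h4 s hs⟩⟩⟩
  replace hs : ∀ z, s * z = z * s := fun z => (Subring.mem_center_iff.1 hs z).symm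
  by_contra hw
  push Not at hw
  let I : Ideal R :=
    { carrier := {x | s * x ∈ R}
      add_mem' := fun {x z} hx hz => by simpa [mul_add] using R.add_mem hx hz
      zero_mem' := by simp
      smul_mem' := fun c x hx => by
        simpa [← mul_assoc, ← hs] using R.mul_mem c.2 hx }
  refine hc (main_rad M hN' hrad' ⊤ (fun S _ => ?_) a' ha' trivial _ trivial)
  obtain ⟨u, -, u0, hu⟩ := common_den R hQ S
  refine ⟨R, I, u, fun h => ?_, fun A ⟨S', hS'⟩ hA => (Submodule.eq_bot_iff _).2 fun z hz => ?_,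
    u0, hu⟩
  · obtain ⟨t, t1, t2, t3⟩ := hQ s
    exact t2 (congrArg Subtype.val ((Submodule.eq_bot_iff _).1 h ⟨t, t1⟩ t3))
  obtain ⟨t, -, t0, ht⟩ := common_den R hQ S'
  have h4 : ∀ z ∈ A, z * t ∈ R := fun z hz => by
    rw [← hS'] at hz
    induction hz using Submodule.span_induction with
    | mem z hz => exact ht z hz
    | zero => simp
    | add x z _ _ hx hz => rw [add_mul]; exact R.add_mem hx hz
    | smul c x _ hx => simpa [Subring.smul_def, mul_assoc] using R.mul_mem c.2 hx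
  have h5 : ∀ z ∈ A, s * z ∈ A := fun z hz =>
    Submodule.smul_induction_on (p := fun z => s * z ∈ A) (hA hz) (fun c hc x hx => by
      simpa [Subring.smul_def, mul_assoc] using A.smul_mem ⟨_, hc⟩ hx)
      fun x z hx hz => by rw [mul_add]; exact A.add_mem hx hz
  by_contra z0
  obtain ⟨i, hi⟩ := hw _ (mul_ne_zero z0 t0)
  refine hi (mul_assoc _ z t ▸ h4 _ ?_)
  clear hi
  induction i with
  | zero => simpa using hz
  | succ i ih => rw [pow_succ', mul_assoc]; exact h5 _ ih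

end Pool.Agent.P.MP_3fd745_al
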