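import Mathlib

/-! Invariant length functions on modular lattices without dense chains. -/

namespace Pool.Agent.P.MP_3fd745_al

variable {L G : Type} [Lattice L] [IsModularLattice L] [Group G] [MulAction G L]

/-- an invariant preorder compatible with the lattice operations -/
structure Pre (G : Type) [Group G] [MulAction G L] (r : L → L → Prop) : Prop where
  of_le : ∀ {A B}, A ≤ B → r A B
  trans : ∀ {A B C}, r A B → r B C → r A C
  sup : ∀ {A B C}, r A C → r B C → r (A ⊔ B) C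
  inf : ∀ {A B C}, r C A → r C B → r C (A ⊓ B)
  smul : ∀ (g : G) {A B}, r A B → r (g • A) (g • B)

/-- `A` lies in `B` up to length `n` -/
def Ln (r : L → L → Prop) : ℕ → L → L → Prop
  | 0, A, B => r A B
  | n + 1, A, B => ∀ C, B ≤ C → C ≤ A ⊔ B → r C B ∨ Ln r n A C

/-- the relative length -/
noncomputable def rlen (r : L → L → Prop) (A B : L) : ℕ := sInf {n | Ln r n A B}

variable {r : L → L → Prop} (h : Pre G r)
include h

lemma Pre.mono (n : ℕ) : ∀ {A B A' B'}, Ln r n A B → r A' (A ⊔ B) → r B B' → Ln r n A' B' := by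
  induction n with
  | zero => exact fun h1 h2 h3 => h.trans h2 (h.sup (h.trans h1 h3) h3)
  | succ n ih =>
    intro A B A' B' h1 h2 h3 C h4 h5
    refine (h1 (B ⊔ (A ⊔ B) ⊓ C) le_sup_left (sup_le le_sup_right inf_le_left)).imp
      (fun h6 => ?_) fun h6 => ih h6 (h.trans h2 (h.of_le (sup_le_sup_left le_sup_left _)))
        (h.sup (h.trans h3 (h.of_le h4)) (h.of_le inf_le_right))
    have h7 : r C ((B' ⊔ (A ⊔ B)) ⊓ C) := h.inf (h.trans (h.of_le h5)
      (h.sup (h.trans h2 (h.of_le le_sup_right)) (h.of_le le_sup_left))) (h.of_le le_rfl)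
    rw [sup_inf_assoc_of_le _ h4] at h7
    exact h.trans h7 (h.sup (h.of_le le_rfl) (h.trans (h.of_le le_sup_right) (h.trans h6 h3)))

omit [IsModularLattice L] in
lemma Pre.up {m n : ℕ} (hn : m ≤ n) {A B} (h1 : Ln r m A B) : Ln r n A B := by
  have key : ∀ n : ℕ, ∀ {A B}, Ln r n A B → Ln r (n + 1) A B := fun n => by
    induction n with
    | zero => exact fun h1 C _ h3 => Or.inl (h.trans (h.of_le h3) (h.sup h1 (h.of_le le_rfl)))
    | succ n ih => exact fun h1 C h2 h3 => (h1 C h2 h3).imp id ih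
  induction hn with
  | refl => exact h1
  | step _ ih => exact key _ ih

lemma Pre.down (n : ℕ) : ∀ {A B}, Ln r n A B → Ln r n A (A ⊓ B) := by
  induction n with
  | zero => exact fun h1 => h.inf (h.of_le le_rfl) h1
  | succ n ih =>
    intro A B h1 C h2 h3
    rw [sup_inf_self] at h3
    refine (h1 (C ⊔ B) le_sup_right (sup_le_sup_right h3 _)).imp
      (fun h4 => h.inf (h.of_le h3) (h.trans (h.of_le le_sup_left) h4)) fun h4 => ?_
    have := ih h4
    rwa [inf_comm, sup_inf_assoc_of_le _ h3, inf_comm, sup_eq_left.2 h2] at this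

lemma Pre.add (k : ℕ) : ∀ m n, m + n = k → ∀ {A B C}, Ln r m A B → Ln r n B C → Ln r k A C := by
  induction k with
  | zero =>
    intro m n e A B C h1 h2
    obtain ⟨rfl, rfl⟩ := Nat.add_eq_zero_iff.1 e
    exact h.trans h1 h2
  | succ k ih =>
    intro m n e A B C h1 h2 X h3 h4
    by_cases h5 : r X (B ⊔ C)
    · have h6 : r X (X ⊓ (B ⊔ C)) := h.inf (h.of_le le_rfl) h5
      rcases n with _ | n
      · exact Or.inl (h.trans h5 (h.sup h2 (h.of_le le_rfl)))
      · exact (h2 _ (le_inf h3 le_sup_right) inf_le_right).imp (h.trans h6) fun h7 =>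
          ih m n (by omega) h1 (h.mono n h7 (h.of_le le_sup_left) (h.of_le inf_le_left))
    · have h6 := h.mono m h1 (h.of_le le_sup_left) (h.of_le (le_sup_left (b := C)))
      rcases m with _ | m
      · exact absurd (h.trans (h.of_le h4) (h.sup h6 (h.of_le le_sup_right))) h5
      · refine Or.inr (ih m n (by omega) ((h6 (B ⊔ X) (sup_le_sup_left h3 _) (sup_le
          (le_sup_of_le_right le_sup_left) (h4.trans (sup_le_sup_left le_sup_right _)))).resolve_left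
          fun h7 => h5 (h.trans (h.of_le le_sup_right) h7)) ?_)
        exact h.mono n (h.mono n h2 (h.of_le le_sup_left) (h.of_le h3)) (h.of_le le_rfl)
          (h.of_le le_rfl)

omit [IsModularLattice L] in
lemma Pre.sub {A B} (hB : B ≤ A) (k : ℕ) :
    ∀ {C}, C ≤ B → Ln r k A C → Ln r (k - rlen r A B) B C := by
  induction k with
  | zero => exact fun _ h2 => by rw [Nat.zero_sub]; exact h.trans (h.of_le hB) h2
  | succ k ih =>
    intro C h1 h2
    rcases e : k + 1 - rlen r A B with _ | n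
    · refine (h2 B h1 (hB.trans le_sup_left)).resolve_right fun h3 => ?_
      have : rlen r A B ≤ k := Nat.sInf_le h3
      omega
    · intro X h3 h4
      rw [sup_eq_left.2 h1] at h4
      refine (h2 X h3 (h4.trans (hB.trans le_sup_left))).imp id fun h5 => ?_
      rw [show n = k - rlen r A B by omega]
      exact ih h4 h5

lemma Pre.rlen_add {A B C} (hB : B ≤ A) (hC : C ≤ B) (h1 : ∃ n, Ln r n A C) :
    rlen r A C = rlen r A B + rlen r B C := by
  have h2 : Ln r _ A C := Nat.sInf_mem h1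
  have h3 := h.mono _ h2 (h.of_le le_sup_left) (h.of_le hC)
  have h4 := h.sub hB _ hC h2
  have h5 : rlen r A B ≤ rlen r A C := Nat.sInf_le h3
  have h6 : rlen r B C ≤ rlen r A C - rlen r A B := Nat.sInf_le h4
  have h7 : rlen r A C ≤ rlen r A B + rlen r B C :=
    Nat.sInf_le (h.add _ _ _ rfl (Nat.sInf_mem (s := {n | Ln r n A B}) ⟨_, h3⟩)
      (Nat.sInf_mem (s := {n | Ln r n B C}) ⟨_, h4⟩))
  omega

lemma Pre.rlen_inf (A B : L) : rlen r A (A ⊓ B) = rlen r A B :=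
  congrArg sInf (Set.ext fun n =>
    ⟨fun h1 => h.mono n h1 (h.of_le le_sup_left) (h.of_le inf_le_right), h.down n⟩)

variable (hG : ∀ (g : G) {A B : L}, A ≤ B → g • A ≤ g • B)
include hG

omit [IsModularLattice L] in
lemma Pre.ln_smul (g : G) (n : ℕ) : ∀ {A B}, Ln r n A B → Ln r n (g • A) (g • B) := by
  induction n with
  | zero => exact h.smul g
  | succ n ih =>
    intro A B h1 C h2 h3
    have h4 : g • A ⊔ g • B ≤ g • (A ⊔ B) := sup_le (hG g le_sup_left) (hG g le_sup_right)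
    have := (h1 (g⁻¹ • C) (by simpa using hG g⁻¹ h2) (by simpa using hG g⁻¹ (h3.trans h4))).imp
      (h.smul g) ih
    simpa using this

lemma Pre.fin : Pre G fun A B => ∃ n, Ln r n A B where
  of_le h1 := ⟨0, h.of_le h1⟩
  trans := fun ⟨_, h1⟩ ⟨_, h2⟩ => ⟨_, h.add _ _ _ rfl h1 h2⟩
  sup := fun {_ B _} ⟨m, h1⟩ ⟨n, h2⟩ => ⟨_, h.add _ _ _ rfl
    (h.mono m (h.mono m h1 (h.of_le le_sup_left) (h.of_le (le_sup_right (a := B))))
      (h.of_le (sup_le_sup_left le_sup_left _)) (h.of_le le_rfl))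
    (h.mono n h2 (h.of_le le_rfl) (h.of_le le_rfl))⟩
  inf := fun ⟨m, h1⟩ ⟨n, h2⟩ => ⟨_, h.add _ _ _ rfl (h.down m h1)
    (h.mono n (h.down n (h.mono n h2 (h.of_le (inf_le_left.trans le_sup_left)) (h.of_le le_rfl)))
      (h.of_le le_sup_left) (h.of_le (inf_le_inf_right _ inf_le_right)))⟩
  smul := fun g _ _ ⟨n, h1⟩ => ⟨n, h.ln_smul hG g n h1⟩

omit h in
theorem exists_len (T Y : L) (hY : Y < T) (hK : ∀ f : ℚ → L, StrictMono f → ¬ ∀ q, f q ≤ T) :
    ∃ (s : L → L → Prop) (δ : L → L → ℤ), Pre G s ∧ s T Y ∧ δ Y T < 0 ∧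
      (∀ A B C, s A B → s B A → s B C → s C B → δ A C = δ A B + δ B C) ∧
      (∀ (g : G) A B, δ (g • A) (g • B) = δ A B) ∧ ∀ A B, A ≤ B → δ A B ≤ 0 := by
  obtain ⟨r, -, ⟨h, hr⟩, hmax⟩ := zorn_le_nonempty₀ {r : L → L → Prop | Pre G r ∧ ¬ r T Y}
    (fun c hc hch y hy => ⟨fun A B => ∃ r ∈ c, r A B, ⟨⟨fun h1 => ⟨y, hy, (hc hy).1.of_le h1⟩,
      fun ⟨r, a, b⟩ ⟨r', a', b'⟩ => (hch.total a a').elim
        (fun e => ⟨r', a', (hc a').1.trans (e _ _ b) b'⟩)
        (fun e => ⟨r, a, (hc a).1.trans b (e _ _ b')⟩),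
      fun ⟨r, a, b⟩ ⟨r', a', b'⟩ => (hch.total a a').elim
        (fun e => ⟨r', a', (hc a').1.sup (e _ _ b) b'⟩)
        (fun e => ⟨r, a, (hc a).1.sup b (e _ _ b')⟩),
      fun ⟨r, a, b⟩ ⟨r', a', b'⟩ => (hch.total a a').elim
        (fun e => ⟨r', a', (hc a').1.inf (e _ _ b) b'⟩)
        (fun e => ⟨r, a, (hc a).1.inf b (e _ _ b')⟩),
      fun g _ _ ⟨r, a, b⟩ => ⟨r, a, (hc a).1.smul g b⟩⟩, fun ⟨r, a, b⟩ => (hc a).2 b⟩,
      fun z hz _ _ b => ⟨z, hz, b⟩⟩) (· ≤ ·)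
    ⟨⟨id, le_trans, sup_le, le_inf, fun g _ _ => hG g⟩, hY.not_ge⟩
  have hs := h.fin hG
  have h1 : ∃ n, Ln r n T Y := by
    by_contra hn
    have dense : ∀ A B, A ≤ B → ¬ r B A → ∃ C, (A ≤ C ∧ ¬ r C A) ∧ C ≤ B ∧ ¬ r B C := by
      intro A B h2 h3
      by_contra h4
      refine h3 (hmax ⟨hs, hn⟩ (fun A B b => ⟨0, b⟩) _ _ ⟨1, fun X h5 h6 => ?_⟩)
      rw [sup_eq_left.2 h2] at h6
      by_contra h7
      rw [not_or] at h7
      exact h4 ⟨X, ⟨h5, h7.1⟩, h6, h7.2⟩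
    obtain ⟨c, h2, ⟨h3, h4⟩, h5⟩ := zorn_subset_nonempty {c : Set L | (∀ A ∈ c, A ≤ T) ∧
      c.Pairwise fun A B => (A ≤ B ∧ ¬ r B A) ∨ (B ≤ A ∧ ¬ r A B)}
      (fun c hc hch _ => ⟨⋃₀ c, ⟨fun A ⟨t, a, b⟩ => (hc a).1 A b, hch.pairwise_sUnion.2
        fun t a => (hc a).2⟩, fun t a => Set.subset_sUnion_of_mem a⟩) {Y, T}
      ⟨by simp [hY.le], Set.pairwise_pair.2 fun _ => ⟨Or.inl ⟨hY.le, hr⟩, Or.inr ⟨hY.le, hr⟩⟩⟩
    classical
    let _ := IsChain.linearOrder (s := c) fun A a B b e => (h4 a b e).imp And.left And.left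
    have : Nontrivial c := ⟨⟨Y, h2 (by simp)⟩, ⟨T, h2 (by simp)⟩, fun e => hY.ne (congrArg Subtype.val e)⟩
    have : DenselyOrdered c := ⟨fun A B e => by
      have e' : (A : L) < B := e
      obtain ⟨C, c1, c2⟩ := dense A B e'.le
        ((h4 A.2 B.2 e'.ne).resolve_right fun b => e'.not_ge b.1).2
      by_contra h6
      have h7 : ∀ X ∈ c, (C ≤ X ∧ ¬ r X C) ∨ (X ≤ C ∧ ¬ r C X) := fun X hX => by
        rcases le_or_gt (⟨X, hX⟩ : c) A with b | b
        · exact Or.inr ⟨le_trans b c1.1, fun d => c1.2 (h.trans d (h.of_le b))⟩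
        · have b' : B ≤ ⟨X, hX⟩ := not_lt.1 fun d => h6 ⟨_, b, d⟩
          exact Or.inl ⟨c2.1.trans b', fun d => c2.2 (h.trans (h.of_le b') d)⟩
      exact (h7 C (h5 (y := insert C c) ⟨Set.forall_mem_insert.2 ⟨c2.1.trans (h3 _ B.2), h3⟩,
        h4.insert fun X hX _ => ⟨h7 X hX, (h7 X hX).symm⟩⟩ (Set.subset_insert _ _)
        (Set.mem_insert _ _))).elim (fun d => d.2 (h.of_le le_rfl)) fun d => d.2 (h.of_le le_rfl)⟩
    obtain ⟨f⟩ := Order.embedding_from_countable_to_dense (α := ℚ) (β := c)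
    exact hK (fun q => f q) (fun _ _ e => f.strictMono e) fun q => h3 _ (f q).2
  have h0 : ∀ A B, A ≤ B → rlen r A B = 0 := fun A B e =>
    Nat.le_zero.1 (Nat.sInf_le (h.of_le e : Ln r 0 A B))
  have key : ∀ A B Z, Z ≤ A → Z ≤ B → (∃ n, Ln r n A Z) → (∃ n, Ln r n B Z) →
      (rlen r A B : ℤ) - rlen r B A = rlen r A Z - rlen r B Z := fun A B Z a b c d => by
    rw [h.rlen_add inf_le_left (le_inf a b) c, h.rlen_add inf_le_right (le_inf a b) d,
      h.rlen_inf, inf_comm A B, h.rlen_inf]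
    push_cast
    ring
  refine ⟨_, fun A B => (rlen r A B : ℤ) - rlen r B A, hs, h1, ?_, fun A B C a b c d => ?_,
    fun g A B => ?_, fun A B e => by simp [h0 A B e]⟩
  · have : rlen r T Y ≠ 0 := fun e => hr (show Ln r 0 T Y from e ▸ Nat.sInf_mem h1)
    simp only [h0 Y T hY.le]
    omega
  · have e := hs.inf (hs.inf b (hs.of_le le_rfl)) c
    have i1 : A ⊓ B ⊓ C ≤ A := inf_le_left.trans inf_le_left
    have i2 : A ⊓ B ⊓ C ≤ B := inf_le_left.trans inf_le_right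
    simp only [key A C _ i1 inf_le_right (hs.trans a e) (hs.trans d e),
      key A B _ i1 i2 (hs.trans a e) e, key B C _ i2 inf_le_right e (hs.trans d e)]
    ring
  · have : ∀ A B, rlen r (g • A) (g • B) = rlen r A B := fun A B => congrArg sInf
      (Set.ext fun n => ⟨fun a => by simpa using h.ln_smul hG g⁻¹ n a, h.ln_smul hG g n⟩)
    simp only [this]

end Pool.Agent.P.MP_3fd745_al
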