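import Pool.Agent.P.MP_3fd745_al.TrA

/-! Wedderburn factorisation, binomial minimal polynomials, vanishing of traces. -/

namespace Pool.Agent.P.MP_3fd745_al

open Polynomial

variable {D : Type} [DivisionRing D]

/-- the operator `x ↦ ∑ c_i x m ^ i` -/
noncomputable def act (m : D) : D[X] →+* AddMonoid.End D :=
  eval₂RingHom' (Module.toAddMonoidEnd D D) (Module.toAddMonoidEnd Dᵐᵒᵖ D (MulOpposite.op m))
    (fun a => by ext x; exact (mul_assoc a x m).symm)

lemma act_C (m c x : D) : act m (C c) x = c * x := by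
  change (eval₂ _ _ (C c) : AddMonoid.End D) x = _
  rw [eval₂_C]; rfl

lemma act_X_pow (m x : D) (i : ℕ) : act m (X ^ i) x = x * m ^ i := by
  change (eval₂ _ _ (X ^ i) : AddMonoid.End D) x = _
  rw [eval₂_X_pow, ← map_pow, ← MulOpposite.op_pow]; rfl

lemma act_mul (m x : D) (p q : D[X]) : act m (p * q) x = act m p (act m q x) := by
  rw [map_mul]; rfl

lemma act_eval (m x : D) (hx : x ≠ 0) (p : D[X]) :
    act m p x = p.eval (x * m * x⁻¹) * x := by
  induction p using Polynomial.induction_on' with
  | add p q hp hq => rw [map_add, eval_add, add_mul, ← hp, ← hq]; rfl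
  | monomial i c =>
    rw [eval_monomial, ← C_mul_X_pow_eq_monomial, act_mul, act_C, act_X_pow,
      ← cj_apply x hx, ← map_pow, cj_apply]
    simp [mul_assoc, hx]

lemma act_map (m x : D) (f : (Subring.center D)[X]) (hf : aeval m f = 0) :
    act m (f.map (algebraMap _ D)) x = 0 := by
  have : act m (f.map (algebraMap _ D)) x = x * aeval m f := by
    clear hf
    induction f using Polynomial.induction_on' with
    | add p q hp hq => rw [Polynomial.map_add, map_add, map_add, mul_add, ← hp, ← hq]; rfl
    | monomial i c =>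
      rw [Polynomial.map_monomial, ← C_mul_X_pow_eq_monomial, act_mul, act_C, act_X_pow,
        aeval_monomial, ← mul_assoc, ← mul_assoc, Algebra.commutes]
  rw [this, hf, mul_zero]

lemma act_indep (m : D) (h : D[X]) (h0 : h ≠ 0)
    (hz : ∀ x, act m h x = 0) : (minpoly (Subring.center D) m).natDegree ≤ h.natDegree := by
  induction hn : h.natDegree using Nat.strong_induction_on generalizing h with
  | _ n ih =>
  have hl := leadingCoeff_ne_zero.2 h0
  obtain ⟨g, hg⟩ : ∃ g, g = C h.leadingCoeff⁻¹ * h := ⟨_, rfl⟩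
  have hgm : g.Monic := hg ▸ monic_C_mul_of_mul_leadingCoeff_eq_one (inv_mul_cancel₀ hl)
  have hgn : g.natDegree = n := by rw [hg, natDegree_C_mul (inv_ne_zero hl), hn]
  have hgz : ∀ x, act m g x = 0 := fun x => by rw [hg, act_mul, hz, map_zero]
  by_cases hc : ∀ u, g * C u - C u * g = 0
  · have : g ∈ lifts (algebraMap (Subring.center D) D) := by
      rw [lifts_iff_coeff_lifts]
      intro i
      refine ⟨⟨g.coeff i, Subring.mem_center_iff.2 fun u => ?_⟩, rfl⟩
      have := congrArg (coeff · i) (sub_eq_zero.1 (hc u))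
      simpa using this.symm
    obtain ⟨f, hf, -, hfm⟩ := lifts_and_degree_eq_and_monic this hgm
    have h1 : aeval m f = 0 := by
      have := act_eval m 1 one_ne_zero g
      rw [hgz, ← hf] at this
      simpa [eval_map, aeval_def] using this.symm
    rw [← hgn, ← hf, hfm.natDegree_map]
    exact natDegree_le_natDegree (minpoly.min _ m hfm h1)
  · obtain ⟨u, hu⟩ := not_forall.1 hc
    have hlt : (g * C u - C u * g).natDegree < n := by
      by_cases hu0 : u = 0
      · simp [hu0] at hu
      refine lt_of_lt_of_eq (natDegree_lt_natDegree hu (degree_sub_lt_left (q := C u * g) ?_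
        (mul_ne_zero hgm.ne_zero (C_ne_zero.2 hu0)) ?_)) ?_
      · rw [degree_mul, degree_mul, add_comm]
      · simp [hgm.leadingCoeff]
      · rw [natDegree_mul_C hu0, hgn]
    refine (ih _ hlt _ hu (fun x => ?_) rfl).trans hlt.le
    rw [map_sub]
    change act m _ x - act m _ x = 0
    rw [act_mul, act_mul, hgz, hgz, map_zero, sub_zero]

lemma right_factor (g : D[X]) (c : D) (h : g.eval c = 0) : ∃ g', g = g' * (X - C c) := by
  have : ∃ g', g - C (g.eval c) = g' * (X - C c) := by
    clear h
    induction g using Polynomial.induction_on' with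
    | add p q hp hq =>
      obtain ⟨p', hp⟩ := hp
      obtain ⟨q', hq⟩ := hq
      exact ⟨p' + q', by rw [add_mul, ← hp, ← hq, eval_add, C_add]; abel⟩
    | monomial i a =>
      refine ⟨C a * ∑ j ∈ Finset.range i, X ^ j * C c ^ (i - 1 - j), ?_⟩
      rw [mul_assoc, (commute_X (C c)).geom_sum₂_mul, eval_monomial, ← C_mul_X_pow_eq_monomial,
        C_mul, C_pow, mul_sub]
  simpa [h] using this

/-- Wedderburn's factorisation theorem, seen through a trace -/
lemma trace_wedd {A : Type} [AddCommGroup A] (τ : D →+ A) (hτ : ∀ x y, τ (x * y) = τ (y * x))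
    (m : D) (hm : IsIntegral (Subring.center D) m) :
    τ (algebraMap _ D (minpoly (Subring.center D) m).nextCoeff) =
      -((minpoly (Subring.center D) m).natDegree • τ m) := by
  set f := minpoly (Subring.center D) m with hf
  have hfm : f.Monic := minpoly.monic hm
  have key : ∀ r ≤ f.natDegree, ∃ g h : D[X], g * h = f.map (algebraMap _ D) ∧ h.Monic ∧
      h.natDegree = r ∧ τ h.nextCoeff = -(r • τ m) := by
    intro r hr
    induction r with
    | zero => exact ⟨_, 1, mul_one _, monic_one, natDegree_one, by simp [nextCoeff]⟩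
    | succ r ih =>
      obtain ⟨g, h, e, h1, h2, h3⟩ := ih (by omega)
      obtain ⟨x, hx⟩ : ∃ x, act m h x ≠ 0 := by
        by_contra hc
        have := act_indep m h h1.ne_zero (fun x => not_not.1 fun h' => hc ⟨x, h'⟩)
        rw [← hf] at this
        omega
      have h4 := act_map m x f (minpoly.aeval _ m)
      rw [← e, act_mul, act_eval m _ hx, mul_eq_zero, or_iff_left hx] at h4
      obtain ⟨g', rfl⟩ := right_factor g _ h4
      refine ⟨g', _, by rw [← e, mul_assoc], (monic_X_sub_C _).mul h1, ?_, ?_⟩
      · rw [(monic_X_sub_C _).natDegree_mul h1, natDegree_X_sub_C, h2, add_comm]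
      · rw [(monic_X_sub_C _).nextCoeff_mul h1, nextCoeff_X_sub_C, map_add, h3, map_neg, hτ,
          inv_mul_cancel_left₀ hx, succ_nsmul]
        abel
  obtain ⟨g, h, e, h1, h2, h3⟩ := key _ le_rfl
  have hm2 := hfm.map (algebraMap (Subring.center D) D)
  have hg : g.Monic := by
    have := hm2.leadingCoeff
    rwa [← e, leadingCoeff_mul, h1.leadingCoeff, mul_one] at this
  have hd := hfm.natDegree_map (algebraMap (Subring.center D) D)
  rw [← e, hg.natDegree_mul h1, h2, add_eq_right, hg.natDegree_eq_zero] at hd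
  rw [hd, one_mul] at e
  rw [← h3, e, nextCoeff_map (algebraMap (Subring.center D) D).injective]

/-- the minimal polynomial of an element of the subgroup is a binomial -/
lemma minpoly_binom {k : ℕ} {P : D → Prop} (H : Hyp k P) (m : D) (hP : P m) :
    IsIntegral (Subring.center D) m ∧ ∃ (d : ℕ) (ν : Subring.center D), (d : D) ≠ 0 ∧
      minpoly (Subring.center D) m = X ^ d - C ν := by
  obtain ⟨n, hn, hc⟩ := H.cop m hP
  have hn0 : 0 < n := Nat.pos_of_ne_zero (by rintro rfl; simp at hn)
  have hm0 := H.h0 m hP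
  let μ : Subring.center D := ⟨m ^ n, Subring.mem_center_iff.2 fun z => (hc z).symm⟩
  have hm : IsIntegral (Subring.center D) m :=
    IsIntegral.of_pow hn0 (isIntegral_algebraMap (x := μ))
  refine ⟨hm, ?_⟩
  set f := minpoly (Subring.center D) m with hf
  have hfm : f.Monic := minpoly.monic hm
  have hdvd : f ∣ X ^ n - C μ := minpoly.dvd _ m (by simp [μ]; exact sub_self _)
  have hroot : AdjoinRoot.root f ^ n = algebraMap _ _ μ := by
    have := AdjoinRoot.mk_eq_zero.2 hdvd
    rwa [map_sub, map_pow, AdjoinRoot.mk_X, AdjoinRoot.mk_C, sub_eq_zero] at this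
  have hN : Algebra.norm (Subring.center D) (AdjoinRoot.root f) ^ n = μ ^ f.natDegree := by
    rw [← map_pow, hroot, Algebra.norm_algebraMap_of_basis (AdjoinRoot.powerBasis hfm.ne_zero).basis]
    simp
  generalize Algebra.norm (Subring.center D) (AdjoinRoot.root f) = N at hN
  have hN' : (N : D) ^ n = (m ^ f.natDegree) ^ n := by
    have := congrArg Subtype.val hN
    simpa [μ, ← pow_mul, mul_comm] using this
  have hN0 : (N : D) ≠ 0 := fun h => by
    rw [h, zero_pow hn0.ne'] at hN'
    exact pow_ne_zero _ (pow_ne_zero _ hm0) hN'.symm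
  have hNc : ∀ z, (N : D) * z = z * N := fun z => (Subring.mem_center_iff.1 N.2 z).symm
  have h1 := torsion_central H.scale (m ^ f.natDegree * (N : D)⁻¹)
    ⟨_, _, H.hpow m _ hP, inv_ne_zero hN0, fun z => Commute.inv_left₀ (hNc z), rfl⟩ n hn0 (by
      rw [Commute.mul_pow (Commute.inv_right₀ (hNc _).symm), inv_pow, hN',
        mul_inv_cancel₀ (pow_ne_zero _ (pow_ne_zero _ hm0))])
  have h2 : ∀ z, m ^ f.natDegree * z = z * m ^ f.natDegree := fun z => by
    have := Commute.mul_left (h1 z) (hNc z)
    rwa [inv_mul_cancel_right₀ hN0] at this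
  have hd0 : 0 < f.natDegree := minpoly.natDegree_pos hm
  refine ⟨f.natDegree, ⟨m ^ f.natDegree, Subring.mem_center_iff.2 fun z => (h2 z).symm⟩, ?_, ?_⟩
  · have : n % f.natDegree = 0 := by
      by_contra hr
      have h3 : m ^ (n % f.natDegree) ∈ Subring.center D := Subring.mem_center_iff.2 fun z => by
        have h4 := Commute.mul_left (hc z) (Commute.pow_left (h2 z) (n / f.natDegree)).inv_left₀
        rw [← pow_mul] at h4
        nth_rewrite 1 [← Nat.mod_add_div n f.natDegree] at h4
        rw [pow_add, mul_inv_cancel_right₀ (pow_ne_zero _ hm0)] at h4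
        exact h4.symm
      have := natDegree_le_natDegree (minpoly.min (Subring.center D) m
        (monic_X_pow_sub_C (⟨_, h3⟩ : Subring.center D) hr) (by simp; exact sub_self _))
      rw [natDegree_X_pow_sub_C] at this
      exact absurd (Nat.mod_lt n hd0) (not_lt.2 this)
    obtain ⟨t, ht⟩ := Nat.dvd_of_mod_eq_zero this
    rw [ht, Nat.cast_mul] at hn
    exact left_ne_zero_of_mul hn
  · refine eq_of_monic_of_dvd_of_natDegree_le hfm (monic_X_pow_sub_C _ hd0.ne')
      (minpoly.dvd _ m (by simp; exact sub_self _)) (by rw [natDegree_X_pow_sub_C]) |>.symm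

/-- traces vanish on noncentral elements of the subgroup -/
lemma trace_zero {k : ℕ} {P : D → Prop} (H : Hyp k P) (τ : D →ₗ[Subring.center D] Subring.center D)
    (hτ : ∀ x y, τ (x * y) = τ (y * x)) (m : D) (hP : P m) :
    (∀ z, m * z = z * m) ∨ τ m = 0 := by
  obtain ⟨hm, d, ν, hd, e⟩ := minpoly_binom H m hP
  have := trace_wedd τ.toAddMonoidHom hτ m hm
  rw [e, natDegree_X_pow_sub_C] at this
  have hd0 : d ≠ 0 := by rintro rfl; simp at hd
  by_cases hd1 : d = 1
  · left
    have h := minpoly.aeval (Subring.center D) m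
    rw [e, hd1] at h
    simp only [pow_one, map_sub, aeval_X, aeval_C, sub_eq_zero] at h
    rw [h]
    exact Algebra.commutes ν
  · right
    rw [nextCoeff_of_natDegree_pos (by rw [natDegree_X_pow_sub_C]; omega), natDegree_X_pow_sub_C,
      coeff_sub, coeff_X_pow, if_neg (by omega), coeff_C, if_neg (by omega)] at this
    simp only [sub_self, map_zero, LinearMap.toAddMonoidHom_coe, nsmul_eq_mul, zero_eq_neg,
      mul_eq_zero] at this
    exact this.resolve_left fun h => hd (by simpa using congrArg Subtype.val h)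

end Pool.Agent.P.MP_3fd745_al
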