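import Pool.Agent.P.MP_3fd745_al.TrB

/-! The curve argument and the theorem for division rings with a trace. -/

namespace Pool.Agent.P.MP_3fd745_al

open Polynomial

variable {D : Type} [DivisionRing D]

lemma exists_dual_poly {F : Type} [Field F] [Algebra F D] (l : D →ₗ[F] F) (G : D[X]) :
    ∃ g : F[X], (∀ j, g.coeff j = l (G.coeff j)) ∧
      ∀ ε : F, g.eval ε = l (G.eval (algebraMap F D ε)) := by
  induction G using Polynomial.induction_on' with
  | add p q hp hq =>
    obtain ⟨p', h1, h2⟩ := hp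
    obtain ⟨q', h3, h4⟩ := hq
    exact ⟨p' + q', fun j => by simp [h1, h3], fun ε => by simp [h2, h4]⟩
  | monomial i c =>
    refine ⟨monomial i (l c), fun j => ?_, fun ε => ?_⟩
    · simp only [coeff_monomial]; split_ifs <;> simp
    · rw [eval_monomial, eval_monomial, ← map_pow, ← Algebra.commutes, ← Algebra.smul_def,
        map_smul, smul_eq_mul, mul_comm]

lemma eval_mul_cen {F : Type} [Field F] [Algebra F D] (ε : F) (p q : D[X]) :
    (p * q).eval (algebraMap F D ε) = p.eval (algebraMap F D ε) * q.eval (algebraMap F D ε) :=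
  eval₂_mul_noncomm _ _ fun _ => (Algebra.commutes ε _).symm

lemma eval_map_fix (φ : D →+* D) (s : D) (hs : φ s = s) (p : D[X]) :
    (p.map φ).eval s = φ (p.eval s) := by
  nth_rewrite 1 [← hs]
  rw [eval_map, eval₂_at_apply]

/-- polynomial representatives of the tower along the curve `1 + ε b` -/
lemma curve_rep {F : Type} [Field F] [Algebra F D] (φ : D →+* D)
    (hφ : ∀ s : F, φ (algebraMap F D s) = algebraMap F D s) (b : D) (n : ℕ) (hn : 0 < n) (β : F)
    (hb : b ^ n = algebraMap F D β) (i : ℕ) :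
    ∃ (p q : D[X]) (c : F[X]), p * q = c.map (algebraMap F D) ∧ q * p = c.map (algebraMap F D) ∧
      c.coeff 0 = 1 ∧ p.coeff 0 = 1 ∧ q.coeff 0 = 1 ∧
      φ (p.coeff 1) - p.coeff 1 = (fun x => φ x - x)^[i + 1] b ∧
      ∀ ε : F, c.eval ε ≠ 0 → 1 + b * algebraMap F D ε ≠ 0 ∧ ∃ s : F,
        p.eval (algebraMap F D ε) = s • tw φ (1 + b * algebraMap F D ε) i := by
  have hev : ∀ (c : F[X]) (ε : F), (c.map (algebraMap F D)).eval (algebraMap F D ε) =
      algebraMap F D (c.eval ε) := fun c ε => by rw [eval_map, eval₂_at_apply]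
  induction i with
  | zero =>
    have e : (1 - (-(C b * X)) ^ n : D[X]) = (1 - C ((-1) ^ n * β) * X ^ n).map (algebraMap F D) := by
      rw [neg_pow, (commute_X (C b)).symm.mul_pow, ← C_pow, hb]
      simp [mul_assoc]
    have e1 := mul_neg_geom_sum (-(C b * X) : D[X]) n
    have e2 := geom_sum_mul_neg (-(C b * X) : D[X]) n
    rw [e, sub_neg_eq_add] at e1 e2
    have h0 : (1 - C ((-1) ^ n * β) * X ^ n : F[X]).coeff 0 = 1 := by
      simp [coeff_X_pow, hn.ne]
    refine ⟨_, _, _, e1, e2, h0, by simp, ?_, by simp [coeff_one], fun ε hε => ⟨?_, 1, ?_⟩⟩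
    · have := congrArg (coeff · 0) e1
      simp only [mul_coeff_zero, coeff_map, h0] at this
      simpa using this
    · have := congrArg (eval (algebraMap F D ε)) e1
      rw [eval_mul_cen, hev] at this
      have h1 := left_ne_zero_of_mul (this ▸ (map_ne_zero (algebraMap F D)).2 hε)
      simpa using h1
    · simp [tw]
  | succ i ih =>
    obtain ⟨p, q, c, h1, h2, h3, h4, h5, h6, h7⟩ := ih
    have hc : (c.map (algebraMap F D)).map φ = c.map (algebraMap F D) := by
      rw [Polynomial.map_map]; congr 1; exact RingHom.ext hφ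
    have hcc : ∀ g : D[X], c.map (algebraMap F D) * g = g * c.map (algebraMap F D) := fun g => by
      ext j
      rw [coeff_mul, coeff_mul, Finset.Nat.sum_antidiagonal_swap.symm]
      exact Finset.sum_congr rfl fun x _ => by simp [Algebra.commutes]
    have h8 : p.coeff 1 + q.coeff 1 = algebraMap F D (c.coeff 1) := by
      have := congrArg (coeff · 1) h1
      simp only [coeff_map, coeff_mul, Finset.Nat.antidiagonal_succ]
        at this
      simpa [h4, h5, add_comm] using this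
    refine ⟨p.map φ * q, p * q.map φ, c * c, ?_, ?_, by simp [h3], by simp [h4, h5],
      by simp [h4, h5], ?_, fun ε hε => ?_⟩
    · rw [mul_assoc, ← mul_assoc q, h2, hcc, ← mul_assoc, ← Polynomial.map_mul, h1, hc,
        Polynomial.map_mul]
    · rw [mul_assoc, ← mul_assoc (q.map φ), ← Polynomial.map_mul, h2, hc, hcc, ← mul_assoc, h1,
        Polynomial.map_mul]
    · have e : (p.map φ * q).coeff 1 = φ (p.coeff 1) - p.coeff 1 + algebraMap F D (c.coeff 1) := by
        simp only [coeff_map, coeff_mul, Finset.Nat.antidiagonal_succ]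
        simp [h4, h5, ← h8]
        abel
      rw [e, h6, Function.iterate_succ_apply' _ (i + 1), map_add, hφ]
      abel
    · rw [eval_mul] at hε
      have hε' := left_ne_zero_of_mul hε
      obtain ⟨h9, s, hs⟩ := h7 ε hε'
      refine ⟨h9, c.eval ε, ?_⟩
      have e := congrArg (eval (algebraMap F D ε)) h1
      rw [eval_mul_cen, hev] at e
      have hp0 := left_ne_zero_of_mul (e ▸ (map_ne_zero (algebraMap F D)).2 hε')
      have hs0 : s ≠ 0 := by rintro rfl; exact hp0 (by simpa using hs)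
      rw [eval_mul_cen, eval_map_fix φ _ (hφ ε), (eq_inv_mul_iff_mul_eq₀ hp0).2 e, hs, tw,
        ← mul_assoc, ← Algebra.commutes, ← Algebra.smul_def, Algebra.smul_def s, map_mul, hφ,
        Algebra.commutes s, Algebra.commutes s]
      simp [mul_assoc, hs0]

lemma curve_comm {k : ℕ} {P : D → Prop} (H : Hyp k P) [Infinite (Subring.center D)]
    (τ : D →ₗ[Subring.center D] Subring.center D) (hτ : ∀ x y, τ (x * y) = τ (y * x))
    (hτ1 : τ 1 ≠ 0) (a : D) (ha : P a) (b : D) (n : ℕ) (hn : 0 < n)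
    (hb : ∀ z, b ^ n * z = z * b ^ n) : a * b = b * a := by
  have ha0 := H.h0 a ha
  have hφ : ∀ s : Subring.center D, cj a ha0 (algebraMap _ D s) = algebraMap _ D s := fun s =>
    (cj_eq_iff _ _ _).2 (Algebra.commutes s a).symm
  obtain ⟨p, q, c, -, -, h3, h4, -, h6, h7⟩ := curve_rep (cj a ha0) hφ b n hn
    ⟨b ^ n, Subring.mem_center_iff.2 fun z => (hb z).symm⟩ rfl k
  obtain ⟨g, hg1, hg2⟩ := exists_dual_poly τ p
  have hc0 : c ≠ 0 := by rintro rfl; simp at h3
  have hg0 : g ≠ 0 := by rintro rfl; exact hτ1 (by simpa [h4] using (hg1 0).symm)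
  obtain ⟨m, hm, hmc⟩ := H.cop a ha
  rw [← cj_eq_iff a ha0]
  by_contra hne
  refine delta_ne (cj a ha0) m hm (fun x => by rw [cj_iter, cj_eq_iff]; exact hmc x) b hne k ?_
  rw [← h6]
  refine (Module.forall_dual_apply_eq_zero_iff (Subring.center D) _).1 fun l => ?_
  obtain ⟨f, hf1, hf2⟩ := exists_dual_poly l (p.map (cj a ha0) - p)
  have : f * (c * g) = 0 := by
    refine Polynomial.funext fun ε => ?_
    rw [eval_mul, eval_mul, eval_zero, mul_eq_zero, mul_eq_zero]
    by_cases hε : c.eval ε = 0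
    · exact Or.inr (Or.inl hε)
    obtain ⟨h9, s, hs⟩ := h7 ε hε
    rcases trace_zero H τ hτ _ (H.htow a ha0 ha _ h9) with h | h
    · left
      rw [hf2, eval_sub, eval_map_fix _ _ (hφ ε), hs, Algebra.smul_def, map_mul, hφ,
        (cj_eq_iff _ _ _).2 (h a).symm, sub_self, map_zero]
    · right; right
      rw [hg2, hs, map_smul, h, smul_zero]
  have hf0 : f = 0 := (mul_eq_zero.1 this).resolve_right (mul_ne_zero hc0 hg0)
  simpa [hf0] using (hf1 1).symm

/-- an element commuting with all its conjugates is central -/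
lemma central_of_conj (a : D) (h : ∀ x, x ≠ 0 → a * (x * a * x⁻¹) = x * a * x⁻¹ * a) (x : D) :
    a * x = x * a := by
  by_cases h0 : x = 0
  · simp [h0]
  by_cases h1 : x + 1 = 0
  · simp [eq_neg_of_add_eq_zero_left h1]
  have hb := h x h0
  have hc := h _ h1
  have e1 : x * a * x⁻¹ * x = x * a := inv_mul_cancel_right₀ h0 _
  have e2 : (x + 1) * a * (x + 1)⁻¹ * (x + 1) = (x + 1) * a := inv_mul_cancel_right₀ h1 _
  generalize x * a * x⁻¹ = b at *
  generalize (x + 1) * a * (x + 1)⁻¹ = c at *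
  have e3 : (c - b) * x = a - c := by
    rw [mul_add, add_mul, mul_one, one_mul, ← e1] at e2
    rw [sub_mul, sub_eq_sub_iff_add_eq_add, e2, add_comm]
  by_cases h2 : c - b = 0
  · rw [h2, zero_mul, eq_comm, sub_eq_zero] at e3
    rw [← e1, ← sub_eq_zero.1 h2, ← e3]
  · rw [(eq_inv_mul_iff_mul_eq₀ h2).2 e3]
    exact Commute.mul_right (Commute.sub_right hc hb).inv_right₀
      (Commute.sub_right (Commute.refl a) hc)

theorem core_trace {k : ℕ} {P : D → Prop} (H : Hyp k P)
    (h1 : (1 : D) ∉ AddSubgroup.closure {z : D | ∃ x y, z = x * y - y * x}) (a : D) (ha : P a)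
    (x : D) : a * x = x * a := by
  obtain ⟨n, hn, hc⟩ := H.hrad a ha
  rcases finite_or_infinite (Subring.center D) with hF | hF
  · obtain ⟨m, hm, h⟩ := isOfFinOrder_iff_pow_eq_one.1 (isOfFinOrder_of_finite (Units.mk0
      (⟨a ^ n, Subring.mem_center_iff.2 fun z => (hc z).symm⟩ : Subring.center D)
      (fun h => pow_ne_zero n (H.h0 a ha) (congrArg Subtype.val h))))
    refine torsion_central H a ha (n * m) (Nat.mul_pos hn hm) ?_ x
    rw [pow_mul]
    simpa using congrArg (fun u : (Subring.center D)ˣ => ((u : Subring.center D) : D)) h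
  · let S : Submodule (Subring.center D) D :=
      { (AddSubgroup.closure {z : D | ∃ x y, z = x * y - y * x}).toAddSubmonoid with
        smul_mem' := fun s z hz => by
          change _ ∈ AddSubgroup.closure _ at hz ⊢
          induction hz using AddSubgroup.closure_induction with
          | mem z hz =>
            obtain ⟨x, y, rfl⟩ := hz
            exact AddSubgroup.subset_closure ⟨s • x, y, by simp [smul_sub]⟩
          | zero => simp
          | add x y _ _ hx hy => rw [smul_add]; exact add_mem hx hy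
          | neg x _ hx => rw [smul_neg]; exact neg_mem hx }
    obtain ⟨τ, h2, h3⟩ := S.exists_dual_map_eq_bot_of_notMem h1 inferInstance
    have hτ : ∀ x y, τ (x * y) = τ (y * x) := fun x y => by
      rw [← sub_eq_zero, ← map_sub, ← Submodule.mem_bot (Subring.center D), ← h3]
      exact ⟨_, AddSubgroup.subset_closure ⟨x, y, rfl⟩, rfl⟩
    refine central_of_conj a (fun x hx => curve_comm H τ hτ h2 a ha _ n hn fun z => ?_) x
    rw [← cj_apply x hx, ← map_pow, (cj_eq_iff _ _ _).2 (hc x).symm, hc]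

lemma hyp_of (N : Subgroup Dˣ)
    (hN : ∃ (k : ℕ) (H : ℕ → Subgroup Dˣ), H 0 = N ∧ H k = ⊤ ∧
      ∀ i, i < k → H i ≤ H (i + 1) ∧ ((H i).subgroupOf (H (i + 1))).Normal)
    (hrad : ∀ x ∈ N, ∃ n : ℕ, 0 < n ∧ ((x : Dˣ) : D) ^ n ∈ Subring.center D) :
    ∃ k, Hyp k (fun x : D => ∃ g ∈ N, (g : D) = x) := by
  obtain ⟨k, H, h0, hk, hH⟩ := hN
  refine ⟨k, ?_, ?_, ?_, ?_⟩
  · rintro x ⟨g, -, rfl⟩; exact g.ne_zero
  · rintro x n ⟨g, hg, rfl⟩; exact ⟨g ^ n, pow_mem hg n, by simp⟩
  · rintro x ⟨g, hg, rfl⟩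
    obtain ⟨n, hn, h⟩ := hrad g hg
    exact ⟨n, hn, fun z => (Subring.mem_center_iff.1 h z).symm⟩
  · rintro a ha ⟨g, hg, rfl⟩ u hu
    exact tw_mem N k H h0 hk hH g hg u hu

theorem main_trace (N : Subgroup Dˣ)
    (hN : ∃ (k : ℕ) (H : ℕ → Subgroup Dˣ), H 0 = N ∧ H k = ⊤ ∧
      ∀ i, i < k → H i ≤ H (i + 1) ∧ ((H i).subgroupOf (H (i + 1))).Normal)
    (hrad : ∀ x ∈ N, ∃ n : ℕ, 0 < n ∧ ((x : Dˣ) : D) ^ n ∈ Subring.center D)
    (E : Subfield D)
    (h1 : (1 : D) ∉ AddSubgroup.closure {z : D | ∃ x ∈ E, ∃ y ∈ E, z = x * y - y * x})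
    (a : Dˣ) (ha : a ∈ N) (haE : (a : D) ∈ E) (y : D) (hy : y ∈ E) : a * y = y * a := by
  obtain ⟨k, H⟩ := hyp_of N hN hrad
  refine congrArg Subtype.val (core_trace (H.restrict E) (fun h => h1 ?_) ⟨a, haE⟩ ⟨a, ha, rfl⟩
    ⟨y, hy⟩)
  have := AddSubgroup.mem_map_of_mem E.subtype.toAddMonoidHom h
  rw [AddMonoidHom.map_closure] at this
  refine AddSubgroup.closure_mono ?_ this
  rintro _ ⟨_, ⟨x, y, rfl⟩, rfl⟩
  exact ⟨x, x.2, y, y.2, rfl⟩

end Pool.Agent.P.MP_3fd745_al
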